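import Mathlib

/-!
# Powerful terms in Lucas sequences

If `P ≡ 2 (mod 4)` then no term `V_n` of the companion Lucas sequence with coprime parameters
`(P, Q)` is powerful, so Q2 has a positive answer for these pairs; the same residue argument
excludes even `n` for even `P`, and `6 ∣ n` (or `3 ∣ n` if `Q ≡ 1 (mod 4)`) for odd `P`, `Q`.
-/

namespace Pool.Agent.Results.MP_cb8e45_nt.EvenParameter

/-- The companion Lucas sequence `V_n(P, Q)`. -/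
def V (P Q : ℤ) : ℕ → ℤ
  | 0 => 2
  | 1 => P
  | n + 2 => P * V P Q (n + 1) - Q * V P Q n

/-- `m` is a nonzero integer and `p ^ 2 ∣ m` for every prime `p` dividing `m`. -/
def Powerful (m : ℤ) : Prop :=
  m ≠ 0 ∧ ∀ p : ℕ, p.Prime → (p : ℤ) ∣ m → (p : ℤ) ^ 2 ∣ m

theorem V_rec (P Q : ℤ) (n : ℕ) : V P Q (n + 2) = P * V P Q (n + 1) - Q * V P Q n := rfl

theorem V_zero (P Q : ℤ) : V P Q 0 = 2 := rfl

theorem V_one (P Q : ℤ) : V P Q 1 = P := rfl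

/-- an integer which is `2` modulo `4` is not powerful -/
theorem not_powerful {m : ℤ} (h : m % 4 = 2) : ¬ Powerful m := by
  rintro ⟨-, h2⟩
  have h3 := h2 2 Nat.prime_two (by push_cast; omega)
  push_cast at h3
  omega

/-- `P ≡ 2 (mod 4)`, `Q` odd: `V_n ≡ 2 (mod 4)` for all `n` -/
theorem V_mod_four {P Q : ℤ} (hP : P % 4 = 2) (hQ : Q % 2 = 1) (n : ℕ) :
    V P Q n % 4 = 2 ∧ V P Q (n + 1) % 4 = 2 := by
  induction n with
  | zero => exact ⟨by rw [V_zero]; rfl, hP⟩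
  | succ n ih =>
    refine ⟨ih.2, ?_⟩
    rw [V_rec]
    obtain ⟨a, ha⟩ : ∃ a, P = 4 * a + 2 := ⟨P / 4, by omega⟩
    obtain ⟨b, hb⟩ : ∃ b, Q = 2 * b + 1 := ⟨Q / 2, by omega⟩
    obtain ⟨c, hc⟩ : ∃ c, V P Q n = 4 * c + 2 := ⟨V P Q n / 4, by omega⟩
    obtain ⟨d, hd⟩ : ∃ d, V P Q (n + 1) = 4 * d + 2 := ⟨V P Q (n + 1) / 4, by omega⟩
    rw [hc, hd, ha, hb]
    have : (4 * a + 2) * (4 * d + 2) - (2 * b + 1) * (4 * c + 2) =
        4 * (4 * a * d + 2 * a + 2 * d + 1 - 2 * b * c - b - c - 1) + 2 := by ring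
    omega

/-- addition formula for both sequences -/
theorem V_add (P Q : ℤ) : ∀ m n : ℕ, V P Q (n + 2 * m) = V P Q m * V P Q (n + m) - Q ^ m * V P Q n
  | 0, n => by rw [V_zero]; simp only [mul_zero, add_zero, pow_zero]; ring
  | 1, n => by rw [V_one, pow_one]; exact V_rec P Q n
  | m + 2, n => by
    have h1 := V_add P Q (m + 1) (n + 1)
    have h0 := V_add P Q m (n + 2)
    have e1 : n + 1 + 2 * (m + 1) = n + 2 * m + 3 := by ring
    have e2 : n + 1 + (m + 1) = n + m + 2 := by ring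
    have e3 : n + 2 + 2 * m = n + 2 * m + 2 := by ring
    have e4 : n + 2 + m = n + m + 2 := by ring
    have e5 : n + 2 * (m + 2) = n + 2 * m + 4 := by ring
    have e6 : n + (m + 2) = n + m + 2 := by ring
    rw [e1, e2] at h1
    rw [e3, e4] at h0
    rw [e5, e6]
    have h2 : V P Q (n + 2 * m + 4) = P * V P Q (n + 2 * m + 3) - Q * V P Q (n + 2 * m + 2) :=
      V_rec P Q (n + 2 * m + 2)
    have h3 := V_rec P Q n
    have h4 := V_rec P Q m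
    rw [h2, h4, h1, h0, h3]
    ring

theorem V_mul (P Q : ℤ) (m : ℕ) : ∀ k : ℕ, V P Q (m * k) = V (V P Q m) (Q ^ m) k
  | 0 => by rw [mul_zero, V_zero, V_zero]
  | 1 => by rw [mul_one, V_one]
  | k + 2 => by
    rw [V_rec, ← V_mul P Q m (k + 1), ← V_mul P Q m k]
    have h := V_add P Q m (m * k)
    have e1 : m * (k + 2) = m * k + 2 * m := by ring
    have e2 : m * (k + 1) = m * k + m := by ring
    rw [e1, e2, h]

/-- `P` even, `Q` odd: `V_n ≡ 2 (mod 4)` for all even `n`; `P, Q` odd: `V_n ≡ 2 (mod 4)` if `6 ∣ n`,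
and also if `3 ∣ n` when `Q ≡ 1 (mod 4)` -/
theorem V_double {P Q : ℤ} (hQ : Q % 2 = 1) {m : ℕ} (h : V P Q m % 2 = 0) :
    V P Q (2 * m) % 4 = 2 := by
  have h1 := V_add P Q m 0
  rw [zero_add, zero_add, V_zero] at h1
  rw [h1]
  have h2 : (Q ^ m) % 2 = 1 := by
    have : Odd (Q ^ m) := (Int.odd_iff.2 hQ).pow
    exact Int.odd_iff.1 this
  obtain ⟨a, ha⟩ : ∃ a, V P Q m = 2 * a := ⟨V P Q m / 2, by omega⟩
  obtain ⟨c, hc⟩ : ∃ c, Q ^ m = 2 * c + 1 := ⟨Q ^ m / 2, by omega⟩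
  rw [ha, hc]
  have : 2 * a * (2 * a) - (2 * c + 1) * 2 = 4 * (a * a - c - 1) + 2 := by ring
  omega

theorem V_even {P Q : ℤ} (hP : P % 2 = 0) : ∀ n : ℕ, V P Q n % 2 = 0 ∧ V P Q (n + 1) % 2 = 0
  | 0 => ⟨by rw [V_zero]; rfl, hP⟩
  | n + 1 => by
    have ih := V_even (Q := Q) hP n
    refine ⟨ih.2, ?_⟩
    rw [V_rec]
    obtain ⟨a, ha⟩ : ∃ a, V P Q (n + 1) = 2 * a := ⟨V P Q (n + 1) / 2, by omega⟩
    obtain ⟨c, hc⟩ : ∃ c, V P Q n = 2 * c := ⟨V P Q n / 2, by omega⟩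
    rw [ha, hc]
    have : P * (2 * a) - Q * (2 * c) = 2 * (P * a - Q * c) := by ring
    omega

/-- modulo `2` the sequence `V` has period `3` for odd `P`, `Q` -/
theorem V_three {P Q : ℤ} (hP : P % 2 = 1) (hQ : Q % 2 = 1) (n : ℕ) :
    V P Q (3 * n) % 2 = 0 := by
  have key : ∀ n : ℕ, V P Q (n + 3) % 2 = V P Q n % 2 := by
    intro n
    have h1 : V P Q (n + 3) = P * V P Q (n + 2) - Q * V P Q (n + 1) := V_rec P Q (n + 1)
    have h2 := V_rec P Q n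
    obtain ⟨a, ha⟩ : ∃ a, P = 2 * a + 1 := ⟨P / 2, by omega⟩
    obtain ⟨c, hc⟩ : ∃ c, Q = 2 * c + 1 := ⟨Q / 2, by omega⟩
    rw [h1, h2, ha, hc]
    have : (2 * a + 1) * ((2 * a + 1) * V (2 * a + 1) (2 * c + 1) (n + 1) -
        (2 * c + 1) * V (2 * a + 1) (2 * c + 1) n) -
        (2 * c + 1) * V (2 * a + 1) (2 * c + 1) (n + 1) =
        V (2 * a + 1) (2 * c + 1) n + 2 * ((2 * a * a + 2 * a - c) *
          V (2 * a + 1) (2 * c + 1) (n + 1) -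
          (2 * a * c + a + c + 1) * V (2 * a + 1) (2 * c + 1) n) := by ring
    omega
  induction n with
  | zero => rw [mul_zero, V_zero]; rfl
  | succ n ih =>
    rw [mul_add, mul_one, key, ih]

/-- `P` odd, `Q ≡ 1 (mod 4)`: `V_{3k} ≡ 2 (mod 4)` -/
theorem V_three_mod {P Q : ℤ} (hP : P % 2 = 1) (hQ : Q % 4 = 1) (k : ℕ) :
    V P Q (3 * k) % 4 = 2 := by
  have h1 := V_mul P Q 3 k
  rw [h1]
  refine (V_mod_four ?_ ?_ k).1
  · have e : V P Q 3 = P * (P * P - Q * 2) - Q * P := rfl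
    rw [e]
    obtain ⟨a, ha⟩ : ∃ a, P = 2 * a + 1 := ⟨P / 2, by omega⟩
    obtain ⟨c, hc⟩ : ∃ c, Q = 4 * c + 1 := ⟨Q / 4, by omega⟩
    rw [ha, hc]
    have h4 : (2 * a + 1) * ((2 * a + 1) * (2 * a + 1) - (4 * c + 1) * 2) -
        (4 * c + 1) * (2 * a + 1) = 4 * (2 * a ^ 3 + 3 * a ^ 2 - 6 * a * c - 3 * c - 1) + 2 := by ring
    omega
  · have : Odd (Q ^ 3) := (Int.odd_iff.2 (by omega)).pow
    exact Int.odd_iff.1 this

/-- If `P ≡ 2 (mod 4)`, or `P` and `n` are even, or `P`, `Q` are odd and `6 ∣ n`, or `P` is odd,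
`Q ≡ 1 (mod 4)` and `3 ∣ n`, then `V_n` is not powerful. -/
theorem result {P Q : ℤ} (hPQ : IsCoprime P Q) (n : ℕ)
    (h : P % 4 = 2 ∨ (P % 2 = 0 ∧ 2 ∣ n) ∨ (P % 2 = 1 ∧ Q % 2 = 1 ∧ 6 ∣ n) ∨
      (P % 2 = 1 ∧ Q % 4 = 1 ∧ 3 ∣ n)) :
    ¬ Powerful (V P Q n) := by
  have hQ : P % 2 = 0 → Q % 2 = 1 := by
    intro hP
    by_contra hQ
    have h1 : (2 : ℤ) ∣ Q := by omega
    have h2 : (2 : ℤ) ∣ P := by omega
    exact Int.prime_two.not_isUnit (hPQ.isUnit_of_dvd' h2 h1)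
  rcases h with hP | ⟨hP, k, rfl⟩ | ⟨hP, hQ, k, rfl⟩ | ⟨hP, hQ, k, rfl⟩
  · exact not_powerful (V_mod_four hP (hQ (by omega)) n).1
  · exact not_powerful (V_double (hQ hP) (V_even hP k).1)
  · rw [show 6 * k = 2 * (3 * k) by ring]
    exact not_powerful (V_double hQ (V_three hP hQ k))
  · exact not_powerful (V_three_mod hP hQ k)

end Pool.Agent.Results.MP_cb8e45_nt.EvenParameter
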