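import Mathlib

/-!
# Powerful terms in Lucas sequences over polynomial rings

The function field model of the problem: the integers are replaced by `k[t]`, `k` a field of
characteristic different from `2`.  In characteristic zero `U_n` can be powerful only for `n ≤ 6`
and `V_n` only for `n ≤ 5`, whatever the coprime parameters `P, Q` (not both constant), and these
bounds are attained.  In odd characteristic the same bounds hold for the indices prime to the
characteristic (for `P', Q'` not both zero), and the powerful terms with the other indices are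
described exactly.  The proof applies the Mason-Stothers theorem to `V_n ^ 2 - D U_n ^ 2 = 4 Q ^ n`.
-/

open Polynomial UniqueFactorizationMonoid

namespace Pool.Agent.Results.MP_cb8e45_nt.PolynomialRings

/-- The Lucas sequence `U_n(P, Q)` over a commutative ring. -/
def U {R : Type*} [CommRing R] (P Q : R) : ℕ → R
  | 0 => 0
  | 1 => 1
  | n + 2 => P * U P Q (n + 1) - Q * U P Q n

/-- The companion Lucas sequence `V_n(P, Q)` over a commutative ring. -/
def V {R : Type*} [CommRing R] (P Q : R) : ℕ → R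
  | 0 => 2
  | 1 => P
  | n + 2 => P * V P Q (n + 1) - Q * V P Q n

/-- A polynomial is powerful if it is nonzero and divisible by the square of each irreducible
polynomial dividing it. -/
def Powerful {k : Type*} [Field k] (f : k[X]) : Prop :=
  f ≠ 0 ∧ ∀ g : k[X], Irreducible g → g ∣ f → g ^ 2 ∣ f

section ring

variable {R : Type*} [CommRing R] (P Q : R)

theorem U_zero : U P Q 0 = 0 := rfl

theorem U_one : U P Q 1 = 1 := rfl

theorem V_zero : V P Q 0 = 2 := rfl

theorem V_one : V P Q 1 = P := rfl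

theorem U_rec (n : ℕ) : U P Q (n + 2) = P * U P Q (n + 1) - Q * U P Q n := rfl

theorem V_rec (n : ℕ) : V P Q (n + 2) = P * V P Q (n + 1) - Q * V P Q n := rfl

theorem V_eq (n : ℕ) : V P Q n = 2 * U P Q (n + 1) - P * U P Q n ∧
    V P Q (n + 1) = 2 * U P Q (n + 2) - P * U P Q (n + 1) := by
  induction n with
  | zero =>
    constructor
    · simp [V_zero, U_zero, U_one]
    · simp only [zero_add]
      rw [V_one, U_rec, U_zero, U_one]; ring
  | succ n ih =>
    refine ⟨ih.2, ?_⟩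
    rw [show n + 1 + 1 = n + 2 by ring, show n + 1 + 2 = (n + 1) + 2 by ring, V_rec P Q n,
      U_rec P Q (n + 1), ih.1, ih.2, show n + 1 + 1 = n + 2 by ring, U_rec P Q n]
    ring

theorem U_quad (n : ℕ) : U P Q (n + 1) ^ 2 - P * U P Q (n + 1) * U P Q n + Q * U P Q n ^ 2
    = Q ^ n := by
  induction n with
  | zero => simp [U_zero, U_one]
  | succ n ih =>
    rw [show n + 1 + 1 = n + 2 by ring, U_rec P Q n]
    linear_combination Q * ih

theorem disc (n : ℕ) : V P Q n ^ 2 - (P ^ 2 - 4 * Q) * U P Q n ^ 2 = 4 * Q ^ n := by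
  rw [(V_eq P Q n).1, ← U_quad P Q n]
  ring

theorem V_mod (n : ℕ) : Q ∣ V P Q (n + 1) - P ^ (n + 1) ∧ Q ∣ V P Q (n + 2) - P ^ (n + 2) := by
  induction n with
  | zero =>
    constructor
    · simp [V_one]
    · refine ⟨-2, ?_⟩
      simp only [zero_add]
      rw [V_rec, V_zero, V_one]; ring
  | succ n ih =>
    refine ⟨ih.2, ?_⟩
    obtain ⟨c, hc⟩ := ih.2
    refine ⟨P * c - V P Q (n + 1), ?_⟩
    rw [show n + 1 + 2 = (n + 1) + 2 by ring, V_rec P Q (n + 1), show n + 1 + 1 = n + 2 by ring]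
    linear_combination P * hc

theorem U_mod (n : ℕ) : Q ∣ U P Q (n + 1) - P ^ n ∧ Q ∣ U P Q (n + 2) - P ^ (n + 1) := by
  induction n with
  | zero =>
    constructor
    · simp [U_one]
    · simp only [zero_add]
      rw [U_rec, U_zero, U_one]; simp
  | succ n ih =>
    refine ⟨ih.2, ?_⟩
    obtain ⟨c, hc⟩ := ih.2
    refine ⟨P * c - U P Q (n + 1), ?_⟩
    rw [show n + 1 + 2 = (n + 1) + 2 by ring, U_rec P Q (n + 1), show n + 1 + 1 = n + 2 by ring]
    linear_combination P * hc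

variable {P Q}

theorem V_coprime (h : IsCoprime P Q) {n : ℕ} (hn : 1 ≤ n) : IsCoprime (V P Q n) Q := by
  obtain ⟨m, rfl⟩ := Nat.exists_eq_add_of_le' hn
  obtain ⟨c, hc⟩ := (V_mod P Q m).1
  have h1 : IsCoprime (P ^ (m + 1)) Q := h.pow_left
  have h2 : V P Q (m + 1) = P ^ (m + 1) + Q * c := by linear_combination hc
  rw [h2]
  exact h1.add_mul_left_left c

theorem U_coprime (h : IsCoprime P Q) {n : ℕ} (hn : 1 ≤ n) : IsCoprime (U P Q n) Q := by
  obtain ⟨m, rfl⟩ := Nat.exists_eq_add_of_le' hn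
  obtain ⟨c, hc⟩ := (U_mod P Q m).1
  have h1 : IsCoprime (P ^ m) Q := h.pow_left
  have h2 : U P Q (m + 1) = P ^ m + Q * c := by linear_combination hc
  rw [h2]
  exact h1.add_mul_left_left c

end ring

section poly

variable {k : Type*} [Field k] {P Q : k[X]}

theorem V_deg (hd : Q.natDegree < 2 * P.natDegree) (n : ℕ) :
    (V P Q n).natDegree = n * P.natDegree ∧
      (V P Q (n + 1)).natDegree = (n + 1) * P.natDegree := by
  have hP : 0 < P.natDegree := by omega
  have hP0 : P ≠ 0 := by rintro rfl; simp at hP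
  induction n with
  | zero =>
    constructor
    · rw [V_zero, zero_mul]
      exact natDegree_ofNat 2
    · simp [V_one]
  | succ n ih =>
    refine ⟨ih.2, ?_⟩
    rw [show n + 1 + 1 = n + 2 by ring, V_rec]
    have h1 : V P Q (n + 1) ≠ 0 := by
      intro h
      have := ih.2
      rw [h, natDegree_zero] at this
      have h3 : 0 < (n + 1) * P.natDegree := Nat.mul_pos (Nat.succ_pos n) hP
      omega
    have h2 : (P * V P Q (n + 1)).natDegree = (n + 2) * P.natDegree := by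
      rw [natDegree_mul hP0 h1, ih.2]; ring
    rw [natDegree_sub_eq_left_of_natDegree_lt, h2]
    rw [h2]
    calc (Q * V P Q n).natDegree ≤ Q.natDegree + (V P Q n).natDegree := natDegree_mul_le
      _ = Q.natDegree + n * P.natDegree := by rw [ih.1]
      _ < (n + 2) * P.natDegree := by
        rw [add_mul]; omega

theorem U_deg (hd : Q.natDegree < 2 * P.natDegree) (n : ℕ) :
    (U P Q (n + 1)).natDegree = n * P.natDegree ∧
      (U P Q (n + 2)).natDegree = (n + 1) * P.natDegree := by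
  have hP : 0 < P.natDegree := by omega
  have hP0 : P ≠ 0 := by rintro rfl; simp at hP
  induction n with
  | zero =>
    constructor
    · simp [U_one]
    · simp only [zero_add]
      rw [U_rec]
      simp [U_one, U_zero]
  | succ n ih =>
    refine ⟨ih.2, ?_⟩
    rw [show n + 1 + 2 = (n + 1) + 2 by ring, U_rec P Q (n + 1),
      show n + 1 + 1 = n + 2 by ring]
    have h1 : U P Q (n + 2) ≠ 0 := by
      intro h
      have := ih.2
      rw [h, natDegree_zero] at this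
      have h3 : 0 < (n + 1) * P.natDegree := Nat.mul_pos (Nat.succ_pos n) hP
      omega
    have h2 : (P * U P Q (n + 2)).natDegree = (n + 2) * P.natDegree := by
      rw [natDegree_mul hP0 h1, ih.2]; ring
    rw [natDegree_sub_eq_left_of_natDegree_lt, h2]
    rw [h2]
    calc (Q * U P Q (n + 1)).natDegree ≤ Q.natDegree + (U P Q (n + 1)).natDegree :=
          natDegree_mul_le
      _ = Q.natDegree + n * P.natDegree := by rw [ih.1]
      _ < (n + 2) * P.natDegree := by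
        rw [add_mul]; omega

theorem V_ne (h : IsCoprime P Q) (hc : 0 < P.natDegree ∨ 0 < Q.natDegree) {n : ℕ}
    (hn : 1 ≤ n) : V P Q n ≠ 0 := by
  intro h0
  have h1 : IsCoprime (V P Q n) Q := V_coprime h hn
  rw [h0, isCoprime_zero_left] at h1
  have h2 := natDegree_eq_zero_of_isUnit h1
  have h3 := (V_deg (P := P) (Q := Q) (by omega) n).1
  rw [h0, natDegree_zero] at h3
  have h4 : 0 < n * P.natDegree := Nat.mul_pos hn (by omega)
  omega

theorem U_ne (h : IsCoprime P Q) (hc : 0 < P.natDegree ∨ 0 < Q.natDegree) {n : ℕ}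
    (hn : 1 ≤ n) : U P Q n ≠ 0 := by
  intro h0
  have h1 : IsCoprime (U P Q n) Q := U_coprime h hn
  rw [h0, isCoprime_zero_left] at h1
  have h2 := natDegree_eq_zero_of_isUnit h1
  obtain ⟨m, rfl⟩ := Nat.exists_eq_add_of_le' hn
  rcases Nat.eq_zero_or_pos m with rfl | hm
  · simp [U_one] at h0
  have h3 := (U_deg (P := P) (Q := Q) (by omega) m).1
  rw [h0, natDegree_zero] at h3
  have h4 : 0 < m * P.natDegree := Nat.mul_pos hm (by omega)
  omega

/-- powerful: the degree of the radical is at most half the degree -/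
theorem radical_deg [DecidableEq k] {f : k[X]} (hf : Powerful f) :
    2 * (radical f).natDegree ≤ f.natDegree := by
  have h1 : radical f ^ 2 ∣ f := by
    have h2 : radical f ∣ f := radical_dvd_self
    rw [radical, ← Finset.prod_pow]
    refine Finset.prod_dvd_of_coprime ?_ ?_
    · intro x hx y hy hxy
      have h3 : IsRelPrime x y := pairwise_primeFactors_isRelPrime hx hy hxy
      exact (h3.isCoprime).pow
    · intro x hx
      rw [mem_primeFactors] at hx
      exact hf.2 x (irreducible_of_normalized_factor x hx) (dvd_of_mem_normalizedFactors hx)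
  have := natDegree_le_of_dvd h1 hf.1
  rwa [natDegree_pow] at this

theorem V_deriv (hQ : derivative Q = 0) (n : ℕ) :
    derivative (V P Q n) = n * U P Q n * derivative P ∧
    derivative (V P Q (n + 1)) = (n + 1 : ℕ) * U P Q (n + 1) * derivative P := by
  induction n with
  | zero =>
    constructor
    · rw [V_zero, U_zero]; simp
    · simp [V_one, U_one]
  | succ n ih =>
    refine ⟨ih.2, ?_⟩
    rw [show n + 1 + 1 = n + 2 by ring, V_rec, derivative_sub, derivative_mul, derivative_mul,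
      ih.1, ih.2, hQ, U_rec P Q n, (V_eq P Q n).2, U_rec P Q n]
    push_cast
    ring

/-- the degree inequalities given by the Mason-Stothers theorem -/
theorem mason [DecidableEq k] (h2 : (2 : k) ≠ 0) (h : IsCoprime P Q) (hD : P ^ 2 - 4 * Q ≠ 0)
    (hc : derivative P ≠ 0 ∨ derivative Q ≠ 0) {n : ℕ} (hn : (n : k) ≠ 0) :
    ∃ M : ℕ, 2 * (V P Q n).natDegree ≤ M ∧ n * Q.natDegree ≤ M ∧
      (P ^ 2 - 4 * Q).natDegree + 2 * (U P Q n).natDegree ≤ M ∧
      M + 1 ≤ (radical (V P Q n)).natDegree + Q.natDegree + (P ^ 2 - 4 * Q).natDegree +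
        (radical (U P Q n)).natDegree := by
  have hn1 : 1 ≤ n := by
    rcases Nat.eq_zero_or_pos n with rfl | h
    · simp at hn
    · exact h
  have hdeg : 0 < P.natDegree ∨ 0 < Q.natDegree := by
    rcases hc with hc | hc
    · left
      by_contra h0
      exact hc (derivative_of_natDegree_zero (by omega))
    · right
      by_contra h0
      exact hc (derivative_of_natDegree_zero (by omega))
  have hV := V_ne h hdeg hn1
  have hU := U_ne h hdeg hn1
  have hQ : Q ≠ 0 := by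
    rintro rfl
    have h1 := natDegree_eq_zero_of_isUnit (isCoprime_zero_right.mp h)
    simp at hdeg
    omega
  have h4 : (4 : k) ≠ 0 := by
    have : (4 : k) = 2 * 2 := by norm_num
    rw [this]; exact mul_ne_zero h2 h2
  have hu4 : IsUnit (-4 : k[X]) := by
    have h5 : (-4 : k[X]) = C (-4 : k) := by rw [map_neg, map_ofNat]
    rw [h5, isUnit_C]
    exact isUnit_iff_ne_zero.mpr (neg_ne_zero.mpr h4)
  have hb : -4 * Q ^ n ≠ 0 := mul_ne_zero hu4.ne_zero (pow_ne_zero _ hQ)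
  have ha : V P Q n ^ 2 ≠ 0 := pow_ne_zero _ hV
  have hcc : -((P ^ 2 - 4 * Q) * U P Q n ^ 2) ≠ 0 :=
    neg_ne_zero.mpr (mul_ne_zero hD (pow_ne_zero _ hU))
  have hab : IsCoprime (V P Q n ^ 2) (-4 * Q ^ n) := by
    rw [isCoprime_mul_unit_left_right hu4]
    exact (V_coprime h hn1).pow
  have hsum : V P Q n ^ 2 + -4 * Q ^ n + -((P ^ 2 - 4 * Q) * U P Q n ^ 2) = 0 := by
    linear_combination disc P Q n
  rcases Polynomial.abc ha hb hcc hab hsum with ⟨h5, h6, h7⟩ | ⟨h5, h6, h7⟩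
  · have hrad : radical (V P Q n ^ 2 * (-4 * Q ^ n) * -((P ^ 2 - 4 * Q) * U P Q n ^ 2)) ∣
        radical (V P Q n) * Q * (P ^ 2 - 4 * Q) * radical (U P Q n) := by
      have e1 : radical (V P Q n ^ 2 * (-4 * Q ^ n)) ∣ radical (V P Q n) * Q := by
        refine radical_mul_dvd.trans (mul_dvd_mul radical_pow_dvd ?_)
        rw [radical_mul_of_isUnit_left hu4]
        exact radical_pow_dvd.trans radical_dvd_self
      have e2 : radical (-((P ^ 2 - 4 * Q) * U P Q n ^ 2)) ∣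
          (P ^ 2 - 4 * Q) * radical (U P Q n) := by
        rw [UniqueFactorizationDomain.radical_neg]
        exact radical_mul_dvd.trans (mul_dvd_mul radical_dvd_self radical_pow_dvd)
      have e3 : radical (V P Q n) * Q * (P ^ 2 - 4 * Q) * radical (U P Q n) =
          radical (V P Q n) * Q * ((P ^ 2 - 4 * Q) * radical (U P Q n)) := by ring
      rw [e3]
      exact radical_mul_dvd.trans (mul_dvd_mul e1 e2)
    have hne : radical (V P Q n) * Q * (P ^ 2 - 4 * Q) * radical (U P Q n) ≠ 0 :=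
      mul_ne_zero (mul_ne_zero (mul_ne_zero radical_ne_zero hQ) hD) radical_ne_zero
    have hle := natDegree_le_of_dvd hrad hne
    rw [natDegree_mul (mul_ne_zero (mul_ne_zero radical_ne_zero hQ) hD) radical_ne_zero,
      natDegree_mul (mul_ne_zero radical_ne_zero hQ) hD, natDegree_mul radical_ne_zero hQ] at hle
    have g1 : (V P Q n ^ 2).natDegree = 2 * (V P Q n).natDegree := natDegree_pow _ _
    have g2 : (-4 * Q ^ n).natDegree = n * Q.natDegree := by
      rw [natDegree_mul hu4.ne_zero (pow_ne_zero _ hQ), natDegree_pow,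
        natDegree_eq_zero_of_isUnit hu4, zero_add]
    have g3 : (-((P ^ 2 - 4 * Q) * U P Q n ^ 2)).natDegree =
        (P ^ 2 - 4 * Q).natDegree + 2 * (U P Q n).natDegree := by
      rw [natDegree_neg, natDegree_mul hD (pow_ne_zero _ hU), natDegree_pow]
    rw [g1] at h5
    rw [g2] at h6
    rw [g3] at h7
    refine ⟨(radical (V P Q n ^ 2 * (-4 * Q ^ n) *
      -((P ^ 2 - 4 * Q) * U P Q n ^ 2))).natDegree - 1, ?_, ?_, ?_, ?_⟩ <;> omega
  · exfalso
    have h8 : derivative Q = 0 := by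
      have h9 : -4 * Q ^ n = C (-4 : k) * Q ^ n := by rw [map_neg, map_ofNat]
      rw [h9, derivative_C_mul, derivative_pow] at h6
      have h10 : C (-4 : k) ≠ 0 := C_ne_zero.mpr (neg_ne_zero.mpr h4)
      have h11 : C (n : k) ≠ 0 := C_ne_zero.mpr hn
      have h12 : Q ^ (n - 1) ≠ 0 := pow_ne_zero _ hQ
      exact (mul_eq_zero.mp ((mul_eq_zero.mp h6).resolve_left h10)).resolve_left
        (mul_ne_zero h11 h12)
    have h9 : derivative (V P Q n) = 0 := by
      rw [derivative_pow] at h5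
      have h11 : C ((2 : ℕ) : k) ≠ 0 := C_ne_zero.mpr (by exact_mod_cast h2)
      exact (mul_eq_zero.mp h5).resolve_left (mul_ne_zero h11 (pow_ne_zero _ hV))
    have h10 := (V_deriv (P := P) h8 n).1
    rw [h9] at h10
    have h11 : (n : k[X]) ≠ 0 := by
      rw [← map_natCast (C : k →+* k[X])]
      exact C_ne_zero.mpr hn
    have h12 := (mul_eq_zero.mp h10.symm).resolve_left (mul_ne_zero h11 hU)
    rcases hc with hc | hc
    · exact hc h12
    · exact hc h8

theorem disc_deg : (P ^ 2 - 4 * Q).natDegree ≤ max (2 * P.natDegree) Q.natDegree := by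
  refine (natDegree_sub_le _ _).trans (max_le_max ?_ ?_)
  · exact natDegree_pow_le
  · calc (4 * Q).natDegree ≤ (4 : k[X]).natDegree + Q.natDegree := natDegree_mul_le
      _ = Q.natDegree := by rw [natDegree_ofNat, zero_add]

/-- the index bounds -/
theorem bounds (h2 : (2 : k) ≠ 0) (h : IsCoprime P Q) (hD : P ^ 2 - 4 * Q ≠ 0)
    (hc : derivative P ≠ 0 ∨ derivative Q ≠ 0) {n : ℕ} (hn : (n : k) ≠ 0) :
    (Powerful (U P Q n) → n ≤ 6) ∧ (Powerful (V P Q n) → n ≤ 5) := by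
  classical
  obtain ⟨M, h3, h4, h5, h6⟩ := mason h2 h hD hc hn
  have hdeg : 0 < P.natDegree ∨ 0 < Q.natDegree := by
    rcases hc with hc | hc
    · left
      by_contra h0
      exact hc (derivative_of_natDegree_zero (by omega))
    · right
      by_contra h0
      exact hc (derivative_of_natDegree_zero (by omega))
  obtain ⟨t, ht⟩ : ∃ t, t = max (2 * P.natDegree) Q.natDegree := ⟨_, rfl⟩
  have hD2 := disc_deg (P := P) (Q := Q)
  rw [← ht] at hD2
  have ht1 : 1 ≤ t := by omega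
  have hM : n * t ≤ M := by
    rcases lt_or_ge Q.natDegree (2 * P.natDegree) with h7 | h7
    · have h8 := (V_deg (P := P) (Q := Q) h7 n).1
      rw [h8] at h3
      have h9 : t = 2 * P.natDegree := by omega
      rw [h9]
      calc n * (2 * P.natDegree) = 2 * (n * P.natDegree) := by ring
        _ ≤ M := h3
    · have h9 : t = Q.natDegree := by omega
      rwa [h9]
  have hr1 : (radical (V P Q n)).natDegree ≤ (V P Q n).natDegree := natDegree_radical_le
  have hr2 : (radical (U P Q n)).natDegree ≤ (U P Q n).natDegree := natDegree_radical_le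
  have hQt : Q.natDegree ≤ t := by omega
  constructor
  · intro hpow
    have h7 := radical_deg hpow
    by_contra h8
    have h9 : 7 * t ≤ n * t := Nat.mul_le_mul_right t (by omega)
    omega
  · intro hpow
    have h7 := radical_deg hpow
    by_contra h8
    have h9 : 6 * t ≤ n * t := Nat.mul_le_mul_right t (by omega)
    omega

end poly

section charp

/-- `U` and `V` in terms of roots -/
theorem binet {A : Type*} [CommRing A] {P Q a b : A} (hs : a + b = P) (hp : a * b = Q) (n : ℕ) :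
    (V P Q n = a ^ n + b ^ n ∧ V P Q (n + 1) = a ^ (n + 1) + b ^ (n + 1)) ∧
    ((a - b) * U P Q n = a ^ n - b ^ n ∧ (a - b) * U P Q (n + 1) = a ^ (n + 1) - b ^ (n + 1)) := by
  subst hs hp
  induction n with
  | zero =>
    simp [V_zero, V_one, U_zero, U_one]
    norm_num
  | succ n ih =>
    refine ⟨⟨ih.1.2, ?_⟩, ih.2.2, ?_⟩
    · rw [show n + 1 + 1 = n + 2 by ring, V_rec, ih.1.1, ih.1.2]
      ring
    · rw [show n + 1 + 1 = n + 2 by ring, U_rec, mul_sub]
      have h1 := ih.2.1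
      have h2 := ih.2.2
      linear_combination (a + b) * h2 - a * b * h1

theorem U_map {R S : Type*} [CommRing R] [CommRing S] (f : R →+* S) (P Q : R) (n : ℕ) :
    (f (U P Q n) = U (f P) (f Q) n ∧ f (U P Q (n + 1)) = U (f P) (f Q) (n + 1)) ∧
    (f (V P Q n) = V (f P) (f Q) n ∧ f (V P Q (n + 1)) = V (f P) (f Q) (n + 1)) := by
  induction n with
  | zero =>
    simp only [U_zero, U_one, V_zero, V_one, zero_add, map_zero, map_one, true_and, and_true]
    exact map_ofNat f 2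
  | succ n ih =>
    refine ⟨⟨ih.1.2, ?_⟩, ih.2.2, ?_⟩
    · rw [show n + 1 + 1 = n + 2 by ring, U_rec, U_rec, map_sub, map_mul, map_mul, ih.1.1, ih.1.2]
    · rw [show n + 1 + 1 = n + 2 by ring, V_rec, V_rec, map_sub, map_mul, map_mul, ih.2.1, ih.2.2]

/-- multiplying the index by an odd prime `p` in characteristic `p` -/
theorem frob {R : Type*} [CommRing R] [IsDomain R] {P Q : R} {p : ℕ} [hp : Fact p.Prime]
    [CharP R p] (hodd : Odd p) (hD : P ^ 2 - 4 * Q ≠ 0) (n : ℕ) :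
    V P Q (p * n) = V P Q n ^ p ∧
      U P Q (p * n) = (P ^ 2 - 4 * Q) ^ ((p - 1) / 2) * U P Q n ^ p := by
  -- adjoin a root
  let f : R[X] := X ^ 2 - C P * X + C Q
  have hfd : f.degree = 2 := by
    have : f = C 1 * X ^ 2 + C (-P) * X + C Q := by simp [f]; ring
    rw [this]
    exact degree_quadratic one_ne_zero
  let φ : R →+* AdjoinRoot f := AdjoinRoot.of f
  have hinj : Function.Injective φ := AdjoinRoot.of.injective_of_degree_ne_zero (by
    rw [hfd]; norm_num)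
  have : CharP (AdjoinRoot f) p := charP_of_injective_ringHom hinj p
  let a : AdjoinRoot f := AdjoinRoot.root f
  let b : AdjoinRoot f := φ P - a
  have hroot : a ^ 2 - φ P * a + φ Q = 0 := by
    have h1 : (AdjoinRoot.mk f) f = 0 := AdjoinRoot.mk_self
    have h2 : (AdjoinRoot.mk f) f = a ^ 2 - φ P * a + φ Q := by
      simp only [f, map_add, map_sub, map_mul, map_pow, AdjoinRoot.mk_X, AdjoinRoot.mk_C]
      rfl
    rw [← h2, h1]
  have hs : a + b = φ P := by simp [b]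
  have hq : a * b = φ Q := by
    simp only [b]; linear_combination -hroot
  have hsq : (a - b) ^ 2 = φ (P ^ 2 - 4 * Q) := by
    rw [map_sub, map_mul, map_pow, map_ofNat, ← hs, ← hq]; ring
  have hbin := binet hs hq n
  have hbin2 := binet hs hq (p * n)
  have hp2 : p = 2 * ((p - 1) / 2) + 1 := by
    obtain ⟨m, hm⟩ := hodd
    omega
  constructor
  · apply hinj
    rw [(U_map φ P Q (p * n)).2.1, map_pow, (U_map φ P Q n).2.1, hbin.1.1, hbin2.1.1,
      add_pow_char (a ^ n) (b ^ n) p, ← pow_mul, ← pow_mul, mul_comm n p]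
  · have h1 : (a - b) * φ (U P Q (p * n)) =
        (a - b) * φ ((P ^ 2 - 4 * Q) ^ ((p - 1) / 2) * U P Q n ^ p) := by
      rw [(U_map φ P Q (p * n)).1.1, map_mul, map_pow, map_pow, (U_map φ P Q n).1.1,
        hbin2.2.1, ← hsq, ← pow_mul, ← mul_assoc, ← pow_succ', ← hp2, ← mul_pow, hbin.2.1,
        sub_pow_char (a ^ n) (b ^ n) (p := p), ← pow_mul, ← pow_mul, mul_comm n p]
    have h2 : φ ((P ^ 2 - 4 * Q) * U P Q (p * n)) =
        φ ((P ^ 2 - 4 * Q) * ((P ^ 2 - 4 * Q) ^ ((p - 1) / 2) * U P Q n ^ p)) := by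
      rw [map_mul, map_mul, ← hsq, pow_two, mul_assoc, mul_assoc, h1]
    exact mul_left_cancel₀ hD (hinj h2)

/-- `2 ^ m U_{m+1} ≡ (m + 1) P ^ m` modulo the discriminant -/
theorem U_mod_disc {R : Type*} [CommRing R] (P Q : R) (m : ℕ) :
    (P ^ 2 - 4 * Q ∣ 2 ^ m * U P Q (m + 1) - (m + 1 : ℕ) * P ^ m) ∧
    (P ^ 2 - 4 * Q ∣ 2 ^ (m + 1) * U P Q (m + 2) - (m + 2 : ℕ) * P ^ (m + 1)) := by
  induction m with
  | zero =>
    constructor
    · simp [U_one]
    · simp only [zero_add]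
      rw [U_rec, U_one, U_zero]
      simp
  | succ m ih =>
    refine ⟨ih.2, ?_⟩
    obtain ⟨c, hc⟩ := ih.1
    obtain ⟨d, hd⟩ := ih.2
    rw [show m + 1 + 2 = (m + 1) + 2 by ring, U_rec P Q (m + 1),
      show m + 1 + 1 = m + 2 by ring]
    refine ⟨2 * P * d - 4 * Q * c + (m + 1) * P ^ m, ?_⟩
    push_cast at hc hd ⊢
    linear_combination 2 * P * hd - 4 * Q * hc

end charp

section powerful

variable {k : Type*} [Field k] {P Q : k[X]}

theorem powerful_pow {f : k[X]} (hf : f ≠ 0) {n : ℕ} (hn : 2 ≤ n) : Powerful (f ^ n) := by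
  refine ⟨pow_ne_zero _ hf, fun g hg h => ?_⟩
  have h1 : g ∣ f := hg.prime.dvd_of_dvd_pow h
  exact (pow_dvd_pow_of_dvd h1 2).trans (pow_dvd_pow f hn)

theorem powerful_mul {f g : k[X]} (hf : Powerful f) (hg : Powerful g) : Powerful (f * g) := by
  refine ⟨mul_ne_zero hf.1 hg.1, fun q hq h => ?_⟩
  rcases hq.prime.dvd_or_dvd h with h | h
  · exact (hf.2 q hq h).mul_right g
  · exact (hg.2 q hq h).mul_left f

/-- coprimality of `D` and `U_m` for `m` prime to the characteristic -/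
theorem disc_coprime (h2 : (2 : k) ≠ 0) (h : IsCoprime P Q) {m : ℕ} (hm : (m : k) ≠ 0)
    {g : k[X]} (hg : Irreducible g) (h1 : g ∣ P ^ 2 - 4 * Q) (h3 : g ∣ U P Q m) : False := by
  have hm1 : 1 ≤ m := by
    rcases Nat.eq_zero_or_pos m with rfl | h
    · simp at hm
    · exact h
  obtain ⟨j, rfl⟩ := Nat.exists_eq_add_of_le' hm1
  have h4 := h1.trans (U_mod_disc P Q j).1
  have h5 : g ∣ ((j + 1 : ℕ) : k[X]) * P ^ j := by
    have h6 := dvd_sub (h3.mul_left (2 ^ j)) h4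
    simpa using h6
  have h6 : g ∣ P := by
    rcases hg.prime.dvd_or_dvd h5 with h7 | h7
    · exfalso
      have h8 : IsUnit (((j + 1 : ℕ) : k[X])) := by
        rw [← map_natCast (C : k →+* k[X]), isUnit_C]
        exact isUnit_iff_ne_zero.mpr hm
      exact hg.not_isUnit (isUnit_of_dvd_unit h7 h8)
    · exact hg.prime.dvd_of_dvd_pow h7
  have h7 : g ∣ 4 * Q := by
    have h8 := dvd_sub (h6.mul_left P) h1
    have h9 : P * P - (P ^ 2 - 4 * Q) = 4 * Q := by ring
    rwa [h9] at h8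
  have h8 : g ∣ Q := by
    rcases hg.prime.dvd_or_dvd h7 with h9 | h9
    · exfalso
      have h4 : (4 : k) ≠ 0 := by
        have : (4 : k) = 2 * 2 := by norm_num
        rw [this]; exact mul_ne_zero h2 h2
      have h10 : IsUnit (4 : k[X]) := by
        have h5 : (4 : k[X]) = C (4 : k) := by rw [map_ofNat]
        rw [h5, isUnit_C]
        exact isUnit_iff_ne_zero.mpr h4
      exact hg.not_isUnit (isUnit_of_dvd_unit h9 h10)
    · exact h9
  exact hg.not_isUnit (h.isUnit_of_dvd' h6 h8)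

/-- the powerful terms whose index is divisible by the characteristic -/
theorem char_case (h2 : (2 : k) ≠ 0) (h : IsCoprime P Q) (hD : P ^ 2 - 4 * Q ≠ 0)
    (hdeg : 0 < P.natDegree ∨ 0 < Q.natDegree) {n : ℕ} (hn1 : 1 ≤ n) (hn : (n : k) = 0) :
    Powerful (V P Q n) ∧
      (Powerful (U P Q n) ↔ (3 : k) ≠ 0 ∨ 9 ∣ n ∨ Powerful (P ^ 2 - 4 * Q)) := by
  obtain ⟨p, hchar⟩ := CharP.exists k
  have hpn : p ∣ n := (CharP.cast_eq_zero_iff k p n).mp hn
  have hp : p.Prime := by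
    rcases CharP.char_is_prime_or_zero k p with h3 | h3
    · exact h3
    · rw [h3, zero_dvd_iff] at hpn
      omega
  have : Fact p.Prime := ⟨hp⟩
  have hp2 : p ≠ 2 := by
    rintro rfl
    exact h2 (by exact_mod_cast CharP.cast_eq_zero k 2)
  have hodd : Odd p := hp.odd_of_ne_two hp2
  have hp3 : 3 ≤ p := by
    have := hp.two_le
    omega
  obtain ⟨m, rfl⟩ := hpn
  have hm : 1 ≤ m := by
    rcases Nat.eq_zero_or_pos m with rfl | h
    · simp at hn1
    · exact h
  have hV := V_ne h hdeg hm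
  have hU := U_ne h hdeg hm
  have hfr := frob (P := P) (Q := Q) (p := p) hodd hD m
  refine ⟨by rw [hfr.1]; exact powerful_pow hV (by omega), ?_⟩
  rw [hfr.2]
  have hUp : Powerful (U P Q m ^ p) := powerful_pow hU (by omega)
  rcases Nat.lt_or_ge 3 p with h3 | h3
  · have h4 : (3 : k) ≠ 0 := by
      intro h5
      have h6 : p ∣ 3 := (CharP.cast_eq_zero_iff k p 3).mp (by exact_mod_cast h5)
      have := Nat.le_of_dvd (by norm_num) h6
      omega
    have h5 : 2 ≤ (p - 1) / 2 := by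
      obtain ⟨j, hj⟩ := hodd
      omega
    exact ⟨fun _ => Or.inl h4, fun _ => powerful_mul (powerful_pow hD h5) hUp⟩
  · have h4 : p = 3 := by omega
    subst h4
    have h5 : (3 : k) = 0 := by exact_mod_cast CharP.cast_eq_zero k 3
    have h6 : (3 - 1) / 2 = 1 := rfl
    rw [h6, pow_one]
    constructor
    · intro h7
      right
      by_cases h8 : 3 ∣ m
      · left
        obtain ⟨j, rfl⟩ := h8
        exact ⟨j, by ring⟩
      · right
        refine ⟨hD, fun g hg hgD => ?_⟩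
        have h9 := h7.2 g hg (hgD.mul_right _)
        have hmk : (m : k) ≠ 0 := fun h => h8 ((CharP.cast_eq_zero_iff k 3 m).mp h)
        have h10 : ¬ g ∣ U P Q m := fun h11 => disc_coprime h2 h hmk hg hgD h11
        have h11 : IsCoprime g (U P Q m) := (hg.coprime_iff_not_dvd).mpr h10
        exact (h11.pow (m := 2) (n := 3)).dvd_of_dvd_mul_right h9
    · rintro (h7 | h7 | h7)
      · exact absurd h5 h7
      · obtain ⟨j, hj⟩ := h7
        have hj2 : m = 3 * j := by omega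
        subst hj2
        have hj1 : 1 ≤ j := by omega
        rw [(frob (P := P) (Q := Q) (p := 3) hodd hD j).2, h6, pow_one]
        have h8 : (P ^ 2 - 4 * Q) * ((P ^ 2 - 4 * Q) * U P Q j ^ 3) ^ 3 =
            (P ^ 2 - 4 * Q) ^ 4 * U P Q j ^ 9 := by ring
        rw [h8]
        exact powerful_mul (powerful_pow hD (by norm_num))
          (powerful_pow (U_ne h hdeg hj1) (by norm_num))
      · exact powerful_mul h7 hUp

/-- over a perfect field all terms are powerful when both derivatives vanish -/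
theorem perfect_case [PerfectField k] (h : IsCoprime P Q)
    (hdeg : 0 < P.natDegree ∨ 0 < Q.natDegree) (hP : derivative P = 0) (hQ : derivative Q = 0)
    {n : ℕ} (hn : 1 ≤ n) : Powerful (U P Q n) ∧ Powerful (V P Q n) := by
  obtain ⟨p, hchar⟩ := CharP.exists k
  rcases CharP.char_is_prime_or_zero k p with hp | hp
  · have : Fact p.Prime := ⟨hp⟩
    have hpp : PerfectRing k p := PerfectField.toPerfectRing p
    have key : ∀ f : k[X], derivative f = 0 → ∃ g : k[X], f = g ^ p := by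
      intro f hf
      refine ⟨(contract p f).map (frobeniusEquiv k p).symm, ?_⟩
      rw [← polynomial_expand_eq, expand_contract p hf hp.ne_zero]
    obtain ⟨P1, rfl⟩ := key P hP
    obtain ⟨Q1, rfl⟩ := key Q hQ
    have hmap := U_map (frobenius k[X] p) P1 Q1 n
    have h1 := hmap.1.1
    have h2 := hmap.2.1
    simp only [frobenius_def] at h1 h2
    have hU := U_ne h hdeg hn
    have hV := V_ne h hdeg hn
    rw [← h1] at hU ⊢
    rw [← h2] at hV ⊢
    exact ⟨powerful_pow (fun h0 => hU (by rw [h0, zero_pow hp.ne_zero])) hp.two_le,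
      powerful_pow (fun h0 => hV (by rw [h0, zero_pow hp.ne_zero])) hp.two_le⟩
  · subst hp
    have : CharZero k := CharP.charP_to_charZero k
    have h1 := derivative_eq_zero.mp hP
    have h2 := derivative_eq_zero.mp hQ
    omega

end powerful

section examples

variable {k : Type*} [Field k]

theorem coprime_of {P Q a b : k[X]} (c : k) (hc : c ≠ 0) (h : a * P + b * Q = C c) :
    IsCoprime P Q :=
  ⟨C c⁻¹ * a, C c⁻¹ * b, by
    rw [mul_assoc, mul_assoc, ← mul_add, h, ← C_mul, inv_mul_cancel₀ hc, C_1]⟩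

theorem ne_of_eval {f : k[X]} {x c : k} (hc : c ≠ 0) (h : f.eval x = c) : f ≠ 0 := by
  rintro rfl
  rw [eval_zero] at h
  exact hc h.symm

theorem U2 (P Q : k[X]) : U P Q 2 = P := by
  rw [U_rec, U_one, U_zero]; ring

theorem U3 (P Q : k[X]) : U P Q 3 = P ^ 2 - Q := by
  rw [U_rec, U2, U_one]; ring

theorem U4 (P Q : k[X]) : U P Q 4 = P * (P ^ 2 - 2 * Q) := by
  rw [U_rec, U3, U2]; ring

theorem U5 (P Q : k[X]) : U P Q 5 = P ^ 4 - 3 * P ^ 2 * Q + Q ^ 2 := by
  rw [U_rec, U4, U3]; ring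

theorem U6 (P Q : k[X]) : U P Q 6 = P * (P ^ 2 - Q) * (P ^ 2 - 3 * Q) := by
  rw [U_rec, U5, U4]; ring

theorem V2 (P Q : k[X]) : V P Q 2 = P ^ 2 - 2 * Q := by
  rw [V_rec, V_one, V_zero]; ring

theorem V3 (P Q : k[X]) : V P Q 3 = P * (P ^ 2 - 3 * Q) := by
  rw [V_rec, V2, V_one]; ring

theorem V4 (P Q : k[X]) : V P Q 4 = P ^ 4 - 4 * P ^ 2 * Q + 2 * Q ^ 2 := by
  rw [V_rec, V3, V2]; ring

theorem V5 (P Q : k[X]) : V P Q 5 = P * (P ^ 4 - 5 * P ^ 2 * Q + 5 * Q ^ 2) := by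
  rw [V_rec, V4, V3]; ring

theorem powerful_of_sq {f g : k[X]} (h : f = g ^ 2) (hf : f ≠ 0) : Powerful f := by
  rw [h]
  exact powerful_pow (fun h0 => hf (by rw [h, h0]; simp)) le_rfl

variable [CharZero k]

theorem exU1 : ∃ P Q : k[X], IsCoprime P Q ∧ P ^ 2 - 4 * Q ≠ 0 ∧ derivative P ≠ 0 ∧
    ∃ Y, U P Q 1 = Y ^ 2 := by
  refine ⟨X, 1, isCoprime_one_right, ne_of_eval (x := 0) (c := -4) (by norm_num) (by simp),
    ne_of_eval (x := 0) (c := 1) (by norm_num) (by simp), 1, by rw [U_one]; ring⟩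

theorem exU2 : ∃ P Q : k[X], IsCoprime P Q ∧ P ^ 2 - 4 * Q ≠ 0 ∧ derivative P ≠ 0 ∧
    ∃ Y, U P Q 2 = Y ^ 2 := by
  refine ⟨X ^ 2, 1, isCoprime_one_right, ne_of_eval (x := 0) (c := -4) (by norm_num) (by simp),
    ne_of_eval (x := 1) (c := 2) (by norm_num) (by simp; norm_num), X, by rw [U2]⟩

theorem exU3 : ∃ P Q : k[X], IsCoprime P Q ∧ P ^ 2 - 4 * Q ≠ 0 ∧ derivative P ≠ 0 ∧
    ∃ Y, U P Q 3 = Y ^ 2 := by
  refine ⟨X, -2 * X - 1, coprime_of (a := -2) (b := -1) 1 one_ne_zero (by rw [C_1]; ring),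
    ne_of_eval (x := 0) (c := 4) (by norm_num) (by simp),
    ne_of_eval (x := 0) (c := 1) (by norm_num) (by simp), X + 1, by rw [U3]; ring⟩

theorem exU4 : ∃ P Q : k[X], IsCoprime P Q ∧ P ^ 2 - 4 * Q ≠ 0 ∧ derivative P ≠ 0 ∧
    ∃ Y, U P Q 4 = Y ^ 2 := by
  refine ⟨X ^ 2, -2 * X ^ 2 - 2, coprime_of (a := -2) (b := -1) 2 two_ne_zero
      (by rw [map_ofNat]; ring),
    ne_of_eval (x := 0) (c := 8) (by norm_num) (by simp; norm_num),
    ne_of_eval (x := 1) (c := 2) (by norm_num) (by simp; norm_num), X * (X ^ 2 + 2), by rw [U4]; ring⟩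

theorem exU5 : ∃ P Q : k[X], IsCoprime P Q ∧ P ^ 2 - 4 * Q ≠ 0 ∧ derivative P ≠ 0 ∧
    ∃ Y, U P Q 5 = Y ^ 2 := by
  refine ⟨2 * X, (X ^ 2 + 1) * (5 * X ^ 2 + 1),
    coprime_of (a := -6 * X - 5 * X ^ 3) (b := 2) 2 two_ne_zero (by rw [map_ofNat]; ring),
    ne_of_eval (x := 0) (c := -4) (by norm_num) (by simp),
    ne_of_eval (x := 0) (c := 2) (by norm_num) (by simp), 5 * X ^ 4 - 1, by rw [U5]; ring⟩

theorem exU6 : ∃ P Q : k[X], IsCoprime P Q ∧ P ^ 2 - 4 * Q ≠ 0 ∧ derivative P ≠ 0 ∧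
    ∃ Y, U P Q 6 = Y ^ 2 := by
  have hcop : IsCoprime (3 * X ^ 2 - 1 : k[X])
      (9 * X ^ 4 - 12 * X ^ 3 + 18 * X ^ 2 - 4 * X + 1) :=
    coprime_of (a := -13 - 9 * X + 3 * X ^ 2 - 9 * X ^ 3) (b := 3 + 3 * X) 16 (by norm_num)
      (by rw [map_ofNat]; ring)
  refine ⟨(3 * X ^ 2 - 1) ^ 2, (3 * X ^ 2 - 1) ^ 4 -
      (9 * X ^ 4 - 12 * X ^ 3 + 18 * X ^ 2 - 4 * X + 1) ^ 2, ?_,
    ne_of_eval (x := 0) (c := 1) (by norm_num) (by simp; norm_num),
    ne_of_eval (x := 1) (c := 24) (by norm_num) (by simp [derivative_pow]; norm_num),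
    (3 * X ^ 2 - 1) * (9 * X ^ 4 - 12 * X ^ 3 + 18 * X ^ 2 - 4 * X + 1) *
      (9 * X ^ 4 - 36 * X ^ 3 + 18 * X ^ 2 - 12 * X + 1), by rw [U6]; ring⟩
  have h1 : IsCoprime ((3 * X ^ 2 - 1 : k[X]) ^ 2)
      ((9 * X ^ 4 - 12 * X ^ 3 + 18 * X ^ 2 - 4 * X + 1) ^ 2) := hcop.pow
  have h2 := (h1.neg_right).add_mul_left_right ((3 * X ^ 2 - 1) ^ 2)
  have h3 : -(9 * X ^ 4 - 12 * X ^ 3 + 18 * X ^ 2 - 4 * X + 1 : k[X]) ^ 2 +
      (3 * X ^ 2 - 1) ^ 2 * (3 * X ^ 2 - 1) ^ 2 = (3 * X ^ 2 - 1) ^ 4 -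
      (9 * X ^ 4 - 12 * X ^ 3 + 18 * X ^ 2 - 4 * X + 1) ^ 2 := by ring
  rwa [h3] at h2

theorem exV1 : ∃ P Q : k[X], IsCoprime P Q ∧ P ^ 2 - 4 * Q ≠ 0 ∧ derivative P ≠ 0 ∧
    ∃ Y, V P Q 1 = Y ^ 2 := by
  refine ⟨X ^ 2, 1, isCoprime_one_right, ne_of_eval (x := 0) (c := -4) (by norm_num) (by simp),
    ne_of_eval (x := 1) (c := 2) (by norm_num) (by simp; norm_num), X, by rw [V_one]⟩

theorem exV2 : ∃ P Q : k[X], IsCoprime P Q ∧ P ^ 2 - 4 * Q ≠ 0 ∧ derivative P ≠ 0 ∧
    ∃ Y, V P Q 2 = Y ^ 2 := by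
  refine ⟨X, -2 * X - 2, coprime_of (a := -2) (b := -1) 2 two_ne_zero
      (by rw [map_ofNat]; ring),
    ne_of_eval (x := 0) (c := 8) (by norm_num) (by simp; norm_num),
    ne_of_eval (x := 0) (c := 1) (by norm_num) (by simp), X + 2, by rw [V2]; ring⟩

theorem exV3 : ∃ P Q : k[X], IsCoprime P Q ∧ P ^ 2 - 4 * Q ≠ 0 ∧ derivative P ≠ 0 ∧
    ∃ Y, V P Q 3 = Y ^ 2 := by
  refine ⟨X ^ 2, -2 * X ^ 2 - 3, coprime_of (a := -2) (b := -1) 3 three_ne_zero
      (by rw [map_ofNat]; ring),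
    ne_of_eval (x := 0) (c := 12) (by norm_num) (by simp; norm_num),
    ne_of_eval (x := 1) (c := 2) (by norm_num) (by simp; norm_num), X * (X ^ 2 + 3), by rw [V3]; ring⟩

theorem exV4 : ∃ P Q : k[X], IsCoprime P Q ∧ P ^ 2 - 4 * Q ≠ 0 ∧ derivative P ≠ 0 ∧
    ∃ Y, V P Q 4 = Y ^ 2 := by
  refine ⟨1 + 2 * X - X ^ 2, 2 * (1 + X ^ 2) * (3 - 2 * X + X ^ 2),
    coprime_of (a := 14 - 10 * X + 6 * X ^ 2 - 2 * X ^ 3) (b := 3 - X) 32 (by norm_num)
      (by rw [map_ofNat]; ring),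
    ne_of_eval (x := 0) (c := -23) (by norm_num) (by simp; norm_num),
    ne_of_eval (x := 0) (c := 2) (by norm_num) (by simp),
    X ^ 4 + 4 * X ^ 3 - 6 * X ^ 2 + 12 * X - 7, by rw [V4]; ring⟩

theorem exV5 : ∃ P Q : k[X], IsCoprime P Q ∧ P ^ 2 - 4 * Q ≠ 0 ∧ derivative P ≠ 0 ∧
    ∃ Y, V P Q 5 = Y ^ 2 := by
  have hcop1 : IsCoprime (5 * X ^ 2 - 1 : k[X]) (4 * X * (5 * X ^ 2 + 1)) :=
    coprime_of (a := -8 - 20 * X ^ 2) (b := 5 * X) 8 (by norm_num)
      (by rw [map_ofNat]; ring)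
  have hcop2 : IsCoprime (5 * X ^ 2 - 1 : k[X])
      (2 + 20 * X + 60 * X ^ 2 + 100 * X ^ 3 + 50 * X ^ 4) :=
    coprime_of (a := -12 - 30 * X - 80 * X ^ 2 - 50 * X ^ 3) (b := -2 + 5 * X) 8 (by norm_num)
      (by rw [map_ofNat]; ring)
  refine ⟨(5 * X ^ 2 - 1) ^ 2, -(4 * X * (5 * X ^ 2 + 1) *
      (2 + 20 * X + 60 * X ^ 2 + 100 * X ^ 3 + 50 * X ^ 4)), ?_,
    ne_of_eval (x := 0) (c := 1) (by norm_num) (by simp),
    ne_of_eval (x := 1) (c := 80) (by norm_num) (by simp [derivative_pow]; norm_num),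
    (5 * X ^ 2 - 1) * (5 * (4 * X * (5 * X ^ 2 + 1)) ^ 2 +
      5 * (4 * X * (5 * X ^ 2 + 1)) * (20 * X ^ 2 + (5 * X ^ 2 + 1) ^ 2) +
      (20 * X ^ 2 + (5 * X ^ 2 + 1) ^ 2) ^ 2), by rw [V5]; ring⟩
  exact ((hcop1.mul_right hcop2).pow_left).neg_right

end examples

/-- **Powerful terms of Lucas sequences over polynomial rings.** Let `k` be a field of
characteristic different from `2`, and let `P, Q` be coprime polynomials, not both constant, with
nonzero discriminant. -/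
theorem result (k : Type*) [Field k] (h2 : (2 : k) ≠ 0) :
    (∀ P Q : k[X], IsCoprime P Q → P ^ 2 - 4 * Q ≠ 0 → (0 < P.natDegree ∨ 0 < Q.natDegree) →
      ∀ n : ℕ, 1 ≤ n →
        (U P Q n ≠ 0 ∧ V P Q n ≠ 0) ∧
        ((n : k) ≠ 0 → (derivative P ≠ 0 ∨ derivative Q ≠ 0) →
          (Powerful (U P Q n) → n ≤ 6) ∧ (Powerful (V P Q n) → n ≤ 5)) ∧
        ((n : k) = 0 → Powerful (V P Q n) ∧
          (Powerful (U P Q n) ↔ (3 : k) ≠ 0 ∨ 9 ∣ n ∨ Powerful (P ^ 2 - 4 * Q))) ∧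
        (PerfectField k → derivative P = 0 → derivative Q = 0 →
          Powerful (U P Q n) ∧ Powerful (V P Q n))) ∧
    (CharZero k →
      (∀ n : ℕ, 1 ≤ n → n ≤ 6 → ∃ P Q : k[X], IsCoprime P Q ∧ P ^ 2 - 4 * Q ≠ 0 ∧
        0 < P.natDegree ∧ ∃ Y, U P Q n = Y ^ 2) ∧
      (∀ n : ℕ, 1 ≤ n → n ≤ 5 → ∃ P Q : k[X], IsCoprime P Q ∧ P ^ 2 - 4 * Q ≠ 0 ∧
        0 < P.natDegree ∧ ∃ Y, V P Q n = Y ^ 2)) := by
  refine ⟨fun P Q h hD hdeg n hn => ⟨⟨U_ne h hdeg hn, V_ne h hdeg hn⟩,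
    fun h3 h4 => bounds h2 h hD h4 h3, fun h3 => char_case h2 h hD hdeg hn h3,
    fun _ h3 h4 => perfect_case h hdeg h3 h4 hn⟩, fun h0 => ?_⟩
  have key : ∀ P : k[X], derivative P ≠ 0 → 0 < P.natDegree := fun P hP => by
    by_contra h3
    exact hP (derivative_of_natDegree_zero (by omega))
  constructor
  · intro n h3 h4
    interval_cases n
    · obtain ⟨P, Q, h5, h6, h7, h8⟩ := exU1 (k := k); exact ⟨P, Q, h5, h6, key P h7, h8⟩
    · obtain ⟨P, Q, h5, h6, h7, h8⟩ := exU2 (k := k); exact ⟨P, Q, h5, h6, key P h7, h8⟩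
    · obtain ⟨P, Q, h5, h6, h7, h8⟩ := exU3 (k := k); exact ⟨P, Q, h5, h6, key P h7, h8⟩
    · obtain ⟨P, Q, h5, h6, h7, h8⟩ := exU4 (k := k); exact ⟨P, Q, h5, h6, key P h7, h8⟩
    · obtain ⟨P, Q, h5, h6, h7, h8⟩ := exU5 (k := k); exact ⟨P, Q, h5, h6, key P h7, h8⟩
    · obtain ⟨P, Q, h5, h6, h7, h8⟩ := exU6 (k := k); exact ⟨P, Q, h5, h6, key P h7, h8⟩
  · intro n h3 h4
    interval_cases n
    · obtain ⟨P, Q, h5, h6, h7, h8⟩ := exV1 (k := k); exact ⟨P, Q, h5, h6, key P h7, h8⟩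
    · obtain ⟨P, Q, h5, h6, h7, h8⟩ := exV2 (k := k); exact ⟨P, Q, h5, h6, key P h7, h8⟩
    · obtain ⟨P, Q, h5, h6, h7, h8⟩ := exV3 (k := k); exact ⟨P, Q, h5, h6, key P h7, h8⟩
    · obtain ⟨P, Q, h5, h6, h7, h8⟩ := exV4 (k := k); exact ⟨P, Q, h5, h6, key P h7, h8⟩
    · obtain ⟨P, Q, h5, h6, h7, h8⟩ := exV5 (k := k); exact ⟨P, Q, h5, h6, key P h7, h8⟩

end Pool.Agent.Results.MP_cb8e45_nt.PolynomialRings
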