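import Mathlib

/-!
# Powerful terms in Lucas sequences: reduction to prime power indices

For coprime integers `P, Q` call an index `m` of Wieferich type if `l ^ 2 ∣ U_m` for each primitive
prime divisor `l` of `U_m`.  If `U_n` is powerful and `M ≥ 5` is the largest prime power dividing
`n`, then `M` or the prime `M - 1` is a divisor of `n` of Wieferich type.  If `V_n` is powerful,
`n = 2 ^ a n'` with `n'` odd, and `q ^ j` is the largest prime power dividing `n'`, then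
`2 ^ (a + 1) q ^ j` is of Wieferich type.  So infinitely many powerful terms `U_n` (or `V_n`) force
infinitely many indices of Wieferich type among the prime powers (or the numbers `2 ^ b q ^ j`).
-/

open Polynomial

namespace Pool.Agent.Results.MP_cb8e45_nt.PrimePowers

/-- The Lucas sequence `U_n(P, Q)` over a commutative ring. -/
def U {R : Type*} [CommRing R] (P Q : R) : ℕ → R
  | 0 => 0
  | 1 => 1
  | n + 2 => P * U P Q (n + 1) - Q * U P Q n

/-- The companion Lucas sequence `V_n(P, Q)` over a commutative ring. -/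
def V {R : Type*} [CommRing R] (P Q : R) : ℕ → R
  | 0 => 2
  | 1 => P
  | n + 2 => P * V P Q (n + 1) - Q * V P Q n

section ring

variable {R : Type*} [CommRing R] (P Q : R)

theorem U_zero : U P Q 0 = 0 := rfl

theorem U_one : U P Q 1 = 1 := rfl

theorem V_zero : V P Q 0 = 2 := rfl

theorem V_one : V P Q 1 = P := rfl

theorem U_rec (n : ℕ) : U P Q (n + 2) = P * U P Q (n + 1) - Q * U P Q n := rfl

theorem V_rec (n : ℕ) : V P Q (n + 2) = P * V P Q (n + 1) - Q * V P Q n := rfl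

theorem V_eq (n : ℕ) : V P Q n = 2 * U P Q (n + 1) - P * U P Q n ∧
    V P Q (n + 1) = 2 * U P Q (n + 2) - P * U P Q (n + 1) := by
  induction n with
  | zero =>
    constructor
    · simp [V_zero, U_zero, U_one]
    · simp only [zero_add]
      rw [V_one, U_rec, U_zero, U_one]; ring
  | succ n ih =>
    refine ⟨ih.2, ?_⟩
    rw [show n + 1 + 1 = n + 2 by ring, show n + 1 + 2 = (n + 1) + 2 by ring, V_rec P Q n,
      U_rec P Q (n + 1), ih.1, ih.2, show n + 1 + 1 = n + 2 by ring, U_rec P Q n]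
    ring

end ring

section charp

/-- `U` and `V` in terms of roots -/
theorem binet {A : Type*} [CommRing A] {P Q a b : A} (hs : a + b = P) (hp : a * b = Q) (n : ℕ) :
    (V P Q n = a ^ n + b ^ n ∧ V P Q (n + 1) = a ^ (n + 1) + b ^ (n + 1)) ∧
    ((a - b) * U P Q n = a ^ n - b ^ n ∧ (a - b) * U P Q (n + 1) = a ^ (n + 1) - b ^ (n + 1)) := by
  subst hs hp
  induction n with
  | zero =>
    simp [V_zero, V_one, U_zero, U_one]
    norm_num
  | succ n ih =>
    refine ⟨⟨ih.1.2, ?_⟩, ih.2.2, ?_⟩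
    · rw [show n + 1 + 1 = n + 2 by ring, V_rec, ih.1.1, ih.1.2]
      ring
    · rw [show n + 1 + 1 = n + 2 by ring, U_rec, mul_sub]
      have h1 := ih.2.1
      have h2 := ih.2.2
      linear_combination (a + b) * h2 - a * b * h1

theorem U_map {R S : Type*} [CommRing R] [CommRing S] (f : R →+* S) (P Q : R) (n : ℕ) :
    (f (U P Q n) = U (f P) (f Q) n ∧ f (U P Q (n + 1)) = U (f P) (f Q) (n + 1)) ∧
    (f (V P Q n) = V (f P) (f Q) n ∧ f (V P Q (n + 1)) = V (f P) (f Q) (n + 1)) := by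
  induction n with
  | zero =>
    simp only [U_zero, U_one, V_zero, V_one, zero_add, map_zero, map_one, true_and, and_true]
    exact map_ofNat f 2
  | succ n ih =>
    refine ⟨⟨ih.1.2, ?_⟩, ih.2.2, ?_⟩
    · rw [show n + 1 + 1 = n + 2 by ring, U_rec, U_rec, map_sub, map_mul, map_mul, ih.1.1, ih.1.2]
    · rw [show n + 1 + 1 = n + 2 by ring, V_rec, V_rec, map_sub, map_mul, map_mul, ih.2.1, ih.2.2]

/-- multiplying the index by an odd prime `p` in characteristic `p` -/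
theorem frob {R : Type*} [CommRing R] [IsDomain R] {P Q : R} {p : ℕ} [hp : Fact p.Prime]
    [CharP R p] (hodd : Odd p) (hD : P ^ 2 - 4 * Q ≠ 0) (n : ℕ) :
    V P Q (p * n) = V P Q n ^ p ∧
      U P Q (p * n) = (P ^ 2 - 4 * Q) ^ ((p - 1) / 2) * U P Q n ^ p := by
  -- adjoin a root
  let f : R[X] := X ^ 2 - C P * X + C Q
  have hfd : f.degree = 2 := by
    have : f = C 1 * X ^ 2 + C (-P) * X + C Q := by simp [f]; ring
    rw [this]
    exact degree_quadratic one_ne_zero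
  let φ : R →+* AdjoinRoot f := AdjoinRoot.of f
  have hinj : Function.Injective φ := AdjoinRoot.of.injective_of_degree_ne_zero (by
    rw [hfd]; norm_num)
  have : CharP (AdjoinRoot f) p := charP_of_injective_ringHom hinj p
  let a : AdjoinRoot f := AdjoinRoot.root f
  let b : AdjoinRoot f := φ P - a
  have hroot : a ^ 2 - φ P * a + φ Q = 0 := by
    have h1 : (AdjoinRoot.mk f) f = 0 := AdjoinRoot.mk_self
    have h2 : (AdjoinRoot.mk f) f = a ^ 2 - φ P * a + φ Q := by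
      simp only [f, map_add, map_sub, map_mul, map_pow, AdjoinRoot.mk_X, AdjoinRoot.mk_C]
      rfl
    rw [← h2, h1]
  have hs : a + b = φ P := by simp [b]
  have hq : a * b = φ Q := by
    simp only [b]; linear_combination -hroot
  have hsq : (a - b) ^ 2 = φ (P ^ 2 - 4 * Q) := by
    rw [map_sub, map_mul, map_pow, map_ofNat, ← hs, ← hq]; ring
  have hbin := binet hs hq n
  have hbin2 := binet hs hq (p * n)
  have hp2 : p = 2 * ((p - 1) / 2) + 1 := by
    obtain ⟨m, hm⟩ := hodd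
    omega
  constructor
  · apply hinj
    rw [(U_map φ P Q (p * n)).2.1, map_pow, (U_map φ P Q n).2.1, hbin.1.1, hbin2.1.1,
      add_pow_char (a ^ n) (b ^ n) p, ← pow_mul, ← pow_mul, mul_comm n p]
  · have h1 : (a - b) * φ (U P Q (p * n)) =
        (a - b) * φ ((P ^ 2 - 4 * Q) ^ ((p - 1) / 2) * U P Q n ^ p) := by
      rw [(U_map φ P Q (p * n)).1.1, map_mul, map_pow, map_pow, (U_map φ P Q n).1.1,
        hbin2.2.1, ← hsq, ← pow_mul, ← mul_assoc, ← pow_succ', ← hp2, ← mul_pow, hbin.2.1,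
        sub_pow_char (a ^ n) (b ^ n) (p := p), ← pow_mul, ← pow_mul, mul_comm n p]
    have h2 : φ ((P ^ 2 - 4 * Q) * U P Q (p * n)) =
        φ ((P ^ 2 - 4 * Q) * ((P ^ 2 - 4 * Q) ^ ((p - 1) / 2) * U P Q n ^ p)) := by
      rw [map_mul, map_mul, ← hsq, pow_two, mul_assoc, mul_assoc, h1]
    exact mul_left_cancel₀ hD (hinj h2)

/-- `2 ^ m U_{m+1} ≡ (m + 1) P ^ m` modulo the discriminant -/
theorem U_mod_disc {R : Type*} [CommRing R] (P Q : R) (m : ℕ) :
    (P ^ 2 - 4 * Q ∣ 2 ^ m * U P Q (m + 1) - (m + 1 : ℕ) * P ^ m) ∧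
    (P ^ 2 - 4 * Q ∣ 2 ^ (m + 1) * U P Q (m + 2) - (m + 2 : ℕ) * P ^ (m + 1)) := by
  induction m with
  | zero =>
    constructor
    · simp [U_one]
    · simp only [zero_add]
      rw [U_rec, U_one, U_zero]
      simp
  | succ m ih =>
    refine ⟨ih.2, ?_⟩
    obtain ⟨c, hc⟩ := ih.1
    obtain ⟨d, hd⟩ := ih.2
    rw [show m + 1 + 2 = (m + 1) + 2 by ring, U_rec P Q (m + 1),
      show m + 1 + 1 = m + 2 by ring]
    refine ⟨2 * P * d - 4 * Q * c + (m + 1) * P ^ m, ?_⟩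
    push_cast at hc hd ⊢
    linear_combination 2 * P * hd - 4 * Q * hc

end charp

/-- `m` is a nonzero integer and `p ^ 2 ∣ m` for every prime `p` dividing `m`. -/
def Powerful (m : ℤ) : Prop :=
  m ≠ 0 ∧ ∀ p : ℕ, p.Prime → (p : ℤ) ∣ m → (p : ℤ) ^ 2 ∣ m

/-- addition formula for both sequences -/
theorem V_add (P Q : ℤ) : ∀ m n : ℕ, V P Q (n + 2 * m) = V P Q m * V P Q (n + m) - Q ^ m * V P Q n
  | 0, n => by rw [V_zero]; simp only [mul_zero, add_zero, pow_zero]; ring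
  | 1, n => by rw [V_one, pow_one]; exact V_rec P Q n
  | m + 2, n => by
    have h1 := V_add P Q (m + 1) (n + 1)
    have h0 := V_add P Q m (n + 2)
    have e1 : n + 1 + 2 * (m + 1) = n + 2 * m + 3 := by ring
    have e2 : n + 1 + (m + 1) = n + m + 2 := by ring
    have e3 : n + 2 + 2 * m = n + 2 * m + 2 := by ring
    have e4 : n + 2 + m = n + m + 2 := by ring
    have e5 : n + 2 * (m + 2) = n + 2 * m + 4 := by ring
    have e6 : n + (m + 2) = n + m + 2 := by ring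
    rw [e1, e2] at h1
    rw [e3, e4] at h0
    rw [e5, e6]
    have h2 : V P Q (n + 2 * m + 4) = P * V P Q (n + 2 * m + 3) - Q * V P Q (n + 2 * m + 2) :=
      V_rec P Q (n + 2 * m + 2)
    have h3 := V_rec P Q n
    have h4 := V_rec P Q m
    rw [h2, h4, h1, h0, h3]
    ring

theorem U_add (P Q : ℤ) : ∀ m n : ℕ, U P Q (n + 2 * m) = V P Q m * U P Q (n + m) - Q ^ m * U P Q n
  | 0, n => by rw [V_zero]; simp only [mul_zero, add_zero, pow_zero]; ring
  | 1, n => by rw [V_one, pow_one]; exact U_rec P Q n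
  | m + 2, n => by
    have h1 := U_add P Q (m + 1) (n + 1)
    have h0 := U_add P Q m (n + 2)
    have e1 : n + 1 + 2 * (m + 1) = n + 2 * m + 3 := by ring
    have e2 : n + 1 + (m + 1) = n + m + 2 := by ring
    have e3 : n + 2 + 2 * m = n + 2 * m + 2 := by ring
    have e4 : n + 2 + m = n + m + 2 := by ring
    have e5 : n + 2 * (m + 2) = n + 2 * m + 4 := by ring
    have e6 : n + (m + 2) = n + m + 2 := by ring
    rw [e1, e2] at h1
    rw [e3, e4] at h0
    rw [e5, e6]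
    have h2 : U P Q (n + 2 * m + 4) = P * U P Q (n + 2 * m + 3) - Q * U P Q (n + 2 * m + 2) :=
      U_rec P Q (n + 2 * m + 2)
    have h3 := U_rec P Q n
    have h4 := V_rec P Q m
    rw [h2, h4, h1, h0, h3]
    ring

theorem V_mul (P Q : ℤ) (m : ℕ) : ∀ k : ℕ, V P Q (m * k) = V (V P Q m) (Q ^ m) k
  | 0 => by rw [mul_zero, V_zero, V_zero]
  | 1 => by rw [mul_one, V_one]
  | k + 2 => by
    rw [V_rec, ← V_mul P Q m (k + 1), ← V_mul P Q m k]
    have h := V_add P Q m (m * k)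
    have e1 : m * (k + 2) = m * k + 2 * m := by ring
    have e2 : m * (k + 1) = m * k + m := by ring
    rw [e1, e2, h]

theorem U_mul (P Q : ℤ) (m : ℕ) : ∀ k : ℕ, U P Q (m * k) = U P Q m * U (V P Q m) (Q ^ m) k
  | 0 => by rw [mul_zero, U_zero, U_zero, mul_zero]
  | 1 => by rw [mul_one, U_one, mul_one]
  | k + 2 => by
    rw [U_rec, mul_sub]
    have h1 := U_mul P Q m (k + 1)
    have h0 := U_mul P Q m k
    have h := U_add P Q m (m * k)
    have e1 : m * (k + 2) = m * k + 2 * m := by ring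
    have e2 : m * (k + 1) = m * k + m := by ring
    rw [e2] at h1
    rw [e1, h, h1, h0]
    ring

/-- the norm equation, with a companion for the induction -/
theorem norm_eq (P Q : ℤ) (n : ℕ) :
    V P Q n ^ 2 = (P ^ 2 - 4 * Q) * U P Q n ^ 2 + 4 * Q ^ n ∧
      V P Q (n + 1) ^ 2 = (P ^ 2 - 4 * Q) * U P Q (n + 1) ^ 2 + 4 * Q ^ (n + 1) ∧
      V P Q n * V P Q (n + 1) = (P ^ 2 - 4 * Q) * (U P Q n * U P Q (n + 1)) + 2 * P * Q ^ n := by
  induction n with
  | zero =>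
    rw [zero_add, V_zero, V_one, U_zero, U_one]
    refine ⟨by ring, by ring, by ring⟩
  | succ n ih =>
    obtain ⟨h0, h1, h2⟩ := ih
    refine ⟨h1, ?_, ?_⟩
    · rw [V_rec, U_rec]
      linear_combination P ^ 2 * h1 - 2 * P * Q * h2 + Q ^ 2 * h0
    · rw [V_rec, U_rec]
      linear_combination P * h1 - Q * h2

/-- `V_{2k}` and `V_{2k+1}` modulo `P ^ 2` -/
theorem V_mod_sq (P Q : ℤ) (k : ℕ) :
    P ^ 2 ∣ V P Q (2 * k) - 2 * (-Q) ^ k ∧
      P ^ 2 ∣ V P Q (2 * k + 1) - (2 * k + 1) * (-Q) ^ k * P := by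
  induction k with
  | zero =>
    rw [mul_zero, zero_add, V_zero, V_one]
    norm_num
  | succ k ih =>
    obtain ⟨⟨a, ha⟩, ⟨b, hb⟩⟩ := ih
    have e1 : V P Q (2 * (k + 1)) = P * V P Q (2 * k + 1) - Q * V P Q (2 * k) := V_rec P Q (2 * k)
    have e2 : V P Q (2 * (k + 1) + 1) = P * V P Q (2 * (k + 1)) - Q * V P Q (2 * k + 1) :=
      V_rec P Q (2 * k + 1)
    have h1 : P ^ 2 ∣ V P Q (2 * (k + 1)) - 2 * (-Q) ^ (k + 1) := by
      refine ⟨P * b + (2 * k + 1) * (-Q) ^ k - Q * a, ?_⟩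
      rw [e1]
      linear_combination P * hb - Q * ha
    refine ⟨h1, ?_⟩
    obtain ⟨c, hc⟩ := h1
    refine ⟨P * c - Q * b, ?_⟩
    rw [e2]
    push_cast
    linear_combination P * hc - Q * hb

/-- a prime dividing `Q` but not `P` divides no `V_n` -/
theorem not_dvd_V {P Q : ℤ} {p : ℕ} (hp : p.Prime) (hQ : (p : ℤ) ∣ Q) (hP : ¬ (p : ℤ) ∣ P)
    {n : ℕ} (hn : 1 ≤ n) : ¬ (p : ℤ) ∣ V P Q n := by
  have key : ∀ n : ℕ, (p : ℤ) ∣ V P Q (n + 1) - P ^ (n + 1) := by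
    intro n
    induction n with
    | zero => rw [zero_add, V_one, pow_one, sub_self]; exact dvd_zero _
    | succ n ih =>
      have h : V P Q (n + 1 + 1) - P ^ (n + 1 + 1) =
          P * (V P Q (n + 1) - P ^ (n + 1)) - Q * V P Q n := by
        have := V_rec P Q n
        rw [show n + 1 + 1 = n + 2 by rfl, this]
        ring
      rw [h]
      exact dvd_sub (Dvd.dvd.mul_left ih _) (Dvd.dvd.mul_right hQ _)
  intro h
  obtain ⟨m, rfl⟩ : ∃ m, n = m + 1 := ⟨n - 1, by omega⟩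
  have h1 : (p : ℤ) ∣ P ^ (m + 1) := by
    have := dvd_sub h (key m)
    rwa [sub_sub_cancel] at this
  exact hP ((Nat.prime_iff_prime_int.1 hp).dvd_of_dvd_pow h1)

/-- a prime dividing `Q` but not `P` divides no `U_n`, `n ≥ 1` -/
theorem not_dvd_U {P Q : ℤ} {p : ℕ} (hp : p.Prime) (hQ : (p : ℤ) ∣ Q) (hP : ¬ (p : ℤ) ∣ P)
    {n : ℕ} (hn : 1 ≤ n) : ¬ (p : ℤ) ∣ U P Q n := by
  have key : ∀ n : ℕ, (p : ℤ) ∣ U P Q (n + 1) - P ^ n := by
    intro n
    induction n with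
    | zero => rw [zero_add, U_one, pow_zero, sub_self]; exact dvd_zero _
    | succ n ih =>
      have h : U P Q (n + 1 + 1) - P ^ (n + 1) =
          P * (U P Q (n + 1) - P ^ n) - Q * U P Q n := by
        have := U_rec P Q n
        rw [show n + 1 + 1 = n + 2 by rfl, this]
        ring
      rw [h]
      exact dvd_sub (Dvd.dvd.mul_left ih _) (Dvd.dvd.mul_right hQ _)
  intro h
  obtain ⟨m, rfl⟩ : ∃ m, n = m + 1 := ⟨n - 1, by omega⟩
  have h1 : (p : ℤ) ∣ P ^ m := by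
    have := dvd_sub h (key m)
    rwa [sub_sub_cancel] at this
  exact hP ((Nat.prime_iff_prime_int.1 hp).dvd_of_dvd_pow h1)

/-- if `V ^ 2 = 4 R` modulo `p` then `2 ^ k U_{k+1} = (k+1) V ^ k` modulo `p` -/
theorem U_mod {A R : ℤ} {p : ℕ} (h : (p : ℤ) ∣ A ^ 2 - 4 * R) (k : ℕ) :
    (p : ℤ) ∣ 2 ^ k * U A R (k + 1) - (k + 1) * A ^ k ∧
      (p : ℤ) ∣ 2 ^ (k + 1) * U A R (k + 2) - (k + 2) * A ^ (k + 1) := by
  induction k with
  | zero =>
    refine ⟨?_, ?_⟩
    · rw [zero_add, U_one]; simp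
    · rw [zero_add, zero_add, U_rec, zero_add, U_one, U_zero]
      simp
  | succ k ih =>
    refine ⟨?_, ?_⟩
    · have := ih.2
      push_cast
      convert this using 3
      ring
    · obtain ⟨⟨a, ha⟩, ⟨b, hb⟩⟩ := ih
      obtain ⟨c, hc⟩ := h
      refine ⟨2 * A * b - 4 * R * a + c * ((k + 1) * A ^ k), ?_⟩
      rw [show k + 1 + 2 = (k + 1) + 2 by rfl, U_rec A R (k + 1),
        show k + 1 + 1 = k + 2 by rfl]
      push_cast
      linear_combination 2 * A * hb - 4 * R * ha + ((k + 1) * A ^ k) * hc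

theorem exactly_U {P Q : ℤ} (hPQ : IsCoprime P Q) {m n l : ℕ} (hm : 1 ≤ m) (hl : l.Prime)
    (h1 : (l : ℤ) ∣ U P Q m) (h2 : ¬ (l : ℤ) ^ 2 ∣ U P Q m) (hmn : m ∣ n)
    (hpow : Powerful (U P Q n)) : l * m ∣ n := by
  obtain ⟨k, rfl⟩ := hmn
  have hlp : Prime (l : ℤ) := Nat.prime_iff_prime_int.1 hl
  have hQ : ¬ (l : ℤ) ∣ Q := by
    intro h
    have hP : ¬ (l : ℤ) ∣ P := fun hP => hlp.not_isUnit (hPQ.isUnit_of_dvd' hP h)
    exact not_dvd_U hl h hP hm h1
  have hmul := U_mul P Q m k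
  set A := V P Q m with hA
  set R := Q ^ m with hR
  have hRl : ¬ (l : ℤ) ∣ R := fun h => hQ (hlp.dvd_of_dvd_pow h)
  have hAR : (l : ℤ) ∣ A ^ 2 - 4 * R := by
    rw [(norm_eq P Q m).1]
    obtain ⟨c, hc⟩ := h1
    refine ⟨(P ^ 2 - 4 * Q) * c * U P Q m, ?_⟩
    rw [hR]
    linear_combination (P ^ 2 - 4 * Q) * U P Q m * hc
  -- `l` divides the quotient
  have hq : (l : ℤ) ∣ U A R k := by
    have h3 := hpow.2 l hl (hmul ▸ Dvd.dvd.mul_right h1 _)
    rw [hmul] at h3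
    by_contra hq
    obtain ⟨c, hc⟩ := h1
    rw [hc, pow_two, mul_assoc] at h3
    have h4 := (mul_dvd_mul_iff_left (hlp.ne_zero)).1 h3
    rcases hlp.dvd_or_dvd h4 with h5 | h5
    · exact h2 (by rw [hc, pow_two]; exact mul_dvd_mul_left _ h5)
    · exact hq h5
  have hk : l ∣ k := by
    rcases Nat.eq_zero_or_pos k with rfl | hk0
    · exact dvd_zero _
    obtain ⟨j, rfl⟩ : ∃ j, k = j + 1 := ⟨k - 1, by omega⟩
    rcases hl.eq_two_or_odd' with h2l | hodd
    · -- `l = 2`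
      subst h2l
      have hA2 : (2 : ℤ) ∣ A := by
        have : (2 : ℤ) ∣ A ^ 2 := by
          have h := dvd_add hAR (Dvd.dvd.mul_right (by norm_num : ((2 : ℕ) : ℤ) ∣ 4) R)
          rwa [sub_add_cancel] at h
        exact Int.prime_two.dvd_of_dvd_pow this
      have hR2 : ¬ (2 : ℤ) ∣ R := hRl
      by_contra hj
      have hpar : ∀ i : ℕ, ¬ (2 : ℤ) ∣ U A R (2 * i + 1) := by
        intro i
        induction i with
        | zero => rw [mul_zero, zero_add, U_one]; norm_num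
        | succ i ih =>
          have e : U A R (2 * (i + 1) + 1) = A * U A R (2 * i + 2) - R * U A R (2 * i + 1) :=
            U_rec A R (2 * i + 1)
          rw [e]
          intro h
          have h5 : (2 : ℤ) ∣ R * U A R (2 * i + 1) := by
            have := dvd_sub (Dvd.dvd.mul_right hA2 (U A R (2 * i + 2))) h
            rwa [sub_sub_cancel] at this
          rcases Int.prime_two.dvd_or_dvd h5 with h6 | h6
          · exact hR2 h6
          · exact ih h6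
      obtain ⟨i, hi⟩ : ∃ i, j + 1 = 2 * i + 1 := ⟨j / 2, by omega⟩
      rw [hi] at hq
      exact hpar i hq
    · have h3 := (U_mod hAR j).1
      have h4 : (l : ℤ) ∣ ((j : ℤ) + 1) * A ^ j := by
        have := dvd_sub (Dvd.dvd.mul_left hq (2 ^ j)) h3
        rwa [sub_sub_cancel] at this
      rcases hlp.dvd_or_dvd h4 with h5 | h5
      · exact_mod_cast h5
      · exfalso
        have hAl : (l : ℤ) ∣ A := hlp.dvd_of_dvd_pow h5
        have h6 : (l : ℤ) ∣ 4 * R := by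
          have hAR' : (l : ℤ) ∣ A * A - 4 * R := by rwa [pow_two] at hAR
          have := dvd_sub (Dvd.dvd.mul_right hAl A) hAR'
          rwa [sub_sub_cancel] at this
        rcases hlp.dvd_or_dvd h6 with h7 | h7
        · have h8 : l ∣ 2 ^ 2 := by exact_mod_cast h7
          have h9 := hl.dvd_of_dvd_pow h8
          have h10 := (Nat.prime_dvd_prime_iff_eq hl Nat.prime_two).1 h9
          rw [h10] at hodd
          exact absurd hodd (by decide)
        · exact hRl h7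
  rw [mul_comm l m]
  exact mul_dvd_mul_left m hk

theorem exactly_V {P Q : ℤ} (hPQ : IsCoprime P Q) {m n l : ℕ} (hm : 1 ≤ m) (hl : l.Prime)
    (h1 : (l : ℤ) ∣ V P Q m) (h2 : ¬ (l : ℤ) ^ 2 ∣ V P Q m) {k : ℕ} (hmn : n = m * k)
    (hk : Odd k) (hpow : Powerful (V P Q n)) : l * m ∣ n := by
  subst hmn
  have hlp : Prime (l : ℤ) := Nat.prime_iff_prime_int.1 hl
  have hQ : ¬ (l : ℤ) ∣ Q := by
    intro h
    have hP : ¬ (l : ℤ) ∣ P := fun hP => hlp.not_isUnit (hPQ.isUnit_of_dvd' hP h)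
    exact not_dvd_V hl h hP hm h1
  have hmul := V_mul P Q m k
  set A := V P Q m with hA
  set R := Q ^ m with hR
  have hRl : ¬ (l : ℤ) ∣ R := fun h => hQ (hlp.dvd_of_dvd_pow h)
  obtain ⟨i, rfl⟩ := hk
  have h3 := (V_mod_sq A R i).2
  have h4 : (l : ℤ) ∣ V A R (2 * i + 1) := by
    have h5 : (l : ℤ) ∣ V A R (2 * i + 1) - (2 * i + 1) * (-R) ^ i * A :=
      dvd_trans (dvd_trans h1 (dvd_pow_self A two_ne_zero)) h3
    have h6 := dvd_add h5 (Dvd.dvd.mul_left h1 ((2 * i + 1) * (-R) ^ i))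
    rwa [sub_add_cancel] at h6
  have h5 := hpow.2 l hl (by rw [hmul]; exact h4)
  rw [hmul] at h5
  have h6 : (l : ℤ) ^ 2 ∣ (2 * i + 1) * (-R) ^ i * A := by
    have := dvd_sub h5 (dvd_trans (pow_dvd_pow_of_dvd h1 2) h3)
    rwa [sub_sub_cancel] at this
  obtain ⟨c, hc⟩ := h1
  have h7 : (l : ℤ) ∣ (2 * i + 1) * (-R) ^ i * c := by
    rw [hc, pow_two, show ((2 * (i : ℤ) + 1) * (-R) ^ i * (l * c)) =
      l * ((2 * i + 1) * (-R) ^ i * c) by ring] at h6
    exact (mul_dvd_mul_iff_left hlp.ne_zero).1 h6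
  have h8 : (l : ℤ) ∣ 2 * i + 1 := by
    rcases hlp.dvd_or_dvd h7 with h8 | h8
    · rcases hlp.dvd_or_dvd h8 with h9 | h9
      · exact h9
      · exact absurd ((dvd_neg).1 (hlp.dvd_of_dvd_pow h9)) hRl
    · exact absurd (by rw [hc, pow_two]; exact mul_dvd_mul_left _ h8) h2
  have h9 : l ∣ 2 * i + 1 := by exact_mod_cast h8
  rw [mul_comm l m]
  exact mul_dvd_mul_left m h9

section main

/-- law of apparition -/
theorem apparition {P Q : ℤ} {l : ℕ} (hl : l.Prime) (hQ : ¬ (l : ℤ) ∣ Q) :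
    ∃ j, 1 ≤ j ∧ j ≤ l + 1 ∧ (l : ℤ) ∣ U P Q j := by
  have : Fact l.Prime := ⟨hl⟩
  let f : ℤ →+* ZMod l := Int.castRingHom (ZMod l)
  have hf : ∀ x : ℤ, f x = 0 ↔ (l : ℤ) ∣ x := fun x => ZMod.intCast_zmod_eq_zero_iff_dvd x l
  have key : ∀ j, U (f P) (f Q) j = 0 → (l : ℤ) ∣ U P Q j := fun j hj => by
    rw [← hf, (U_map f P Q j).1.1, hj]
  have hQ0 : f Q ≠ 0 := fun h => hQ ((hf Q).mp h)
  rcases hl.eq_two_or_odd' with rfl | hodd
  · -- the prime two
    by_cases hP : (2 : ℤ) ∣ P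
    · exact ⟨2, by norm_num, by norm_num, by rw [U_rec, U_one, U_zero]; simpa using hP⟩
    · refine ⟨3, by norm_num, by norm_num, ?_⟩
      rw [U_rec, U_rec, U_one, U_zero]
      have h1 : P % 2 = 1 := by omega
      have h2 : Q % 2 = 1 := by
        have : ¬ (2 : ℤ) ∣ Q := by exact_mod_cast hQ
        omega
      obtain ⟨a, ha⟩ : ∃ a, P = 2 * a + 1 := ⟨P / 2, by omega⟩
      obtain ⟨b, hb⟩ : ∃ b, Q = 2 * b + 1 := ⟨Q / 2, by omega⟩
      refine ⟨2 * a ^ 2 + 2 * a - b, ?_⟩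
      rw [ha, hb]; push_cast; ring
  · have hl3 : 3 ≤ l := by
      have := hl.two_le
      rcases hodd with ⟨t, ht⟩
      omega
    have h2 : (2 : ZMod l) ≠ 0 := by
      intro h
      have h3 : ((2 : ℕ) : ZMod l) = 0 := by exact_mod_cast h
      rw [ZMod.natCast_eq_zero_iff] at h3
      have := Nat.le_of_dvd (by norm_num) h3
      omega
    by_cases hD : (f P) ^ 2 - 4 * f Q = 0
    · refine ⟨l, by omega, by omega, key l ?_⟩
      have h3 := (U_mod_disc (f P) (f Q) (l - 1)).1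
      rw [hD, zero_dvd_iff, show l - 1 + 1 = l by omega] at h3
      simp only [CharP.cast_eq_zero, zero_mul, sub_zero] at h3
      exact (mul_eq_zero.mp h3).resolve_left (pow_ne_zero _ h2)
    · have h3 := frob (P := f P) (Q := f Q) (p := l) hodd hD 1
      rw [mul_one, V_one, U_one, one_pow, mul_one, ZMod.pow_card] at h3
      have h4 : (l - 1) / 2 = l / 2 := by
        rcases hodd with ⟨t, ht⟩
        omega
      rw [h4] at h3
      have h5 := (V_eq (f P) (f Q) l).1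
      rcases ZMod.pow_div_two_eq_neg_one_or_one l hD with h6 | h6
      · rw [h6] at h3
        refine ⟨l - 1, by omega, by omega, key (l - 1) ?_⟩
        rw [h3.1, h3.2] at h5
        have h7 : U (f P) (f Q) (l + 1) = f P := by
          have : 2 * U (f P) (f Q) (l + 1) = 2 * f P := by linear_combination -h5
          exact mul_left_cancel₀ h2 this
        have h8 := U_rec (f P) (f Q) (l - 1)
        rw [show l - 1 + 2 = l + 1 by omega, show l - 1 + 1 = l by omega, h7, h3.2] at h8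
        have h9 : f Q * U (f P) (f Q) (l - 1) = 0 := by linear_combination h8
        exact (mul_eq_zero.mp h9).resolve_left hQ0
      · rw [h6] at h3
        refine ⟨l + 1, by omega, by omega, key (l + 1) ?_⟩
        rw [h3.1, h3.2] at h5
        have h7 : 2 * U (f P) (f Q) (l + 1) = 0 := by linear_combination -h5
        exact (mul_eq_zero.mp h7).resolve_left h2

/-- the largest prime power dividing a number -/
theorem max_prime_pow {n : ℕ} (hn : n ≠ 0) {m : ℕ} (hm : IsPrimePow m) (hmn : m ∣ n) :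
    ∃ M, IsPrimePow M ∧ M ∣ n ∧ m ≤ M ∧ ∀ r, IsPrimePow r → r ∣ n → r ≤ M := by
  classical
  have hne : (n.divisors.filter IsPrimePow).Nonempty :=
    ⟨m, Finset.mem_filter.mpr ⟨Nat.mem_divisors.mpr ⟨hmn, hn⟩, hm⟩⟩
  obtain ⟨M, hM, hmax⟩ := Finset.exists_max_image _ (fun x => x) hne
  rw [Finset.mem_filter, Nat.mem_divisors] at hM
  refine ⟨M, hM.2, hM.1.1, hmax m (Finset.mem_filter.mpr ⟨Nat.mem_divisors.mpr ⟨hmn, hn⟩, hm⟩),
    fun r hr hrn => hmax r (Finset.mem_filter.mpr ⟨Nat.mem_divisors.mpr ⟨hrn, hn⟩, hr⟩)⟩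

theorem dvd_lcm_of {n B : ℕ} (h : ∀ r, IsPrimePow r → r ∣ n → r ≤ B) (_ : n ≠ 0) :
    n ∣ (Finset.Icc 1 B).lcm id := by
  rw [Nat.dvd_iff_prime_pow_dvd_dvd]
  intro p k hp hpk
  rcases Nat.eq_zero_or_pos k with rfl | hk
  · simp
  have h1 : IsPrimePow (p ^ k) := hp.isPrimePow.pow hk.ne'
  exact Finset.dvd_lcm (f := id) (Finset.mem_Icc.mpr ⟨h1.pos, h _ h1 hpk⟩)

/-- Each prime `l` which divides `U_m`, but no `U_j` with `0 < j < m`, satisfies `l ^ 2 ∣ U_m`. -/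
def Wieferich (P Q : ℤ) (m : ℕ) : Prop :=
  ∀ l : ℕ, l.Prime → (l : ℤ) ∣ U P Q m → (∀ j, 0 < j → j < m → ¬ (l : ℤ) ∣ U P Q j) →
    (l : ℤ) ^ 2 ∣ U P Q m

theorem not_dvd_Q {P Q : ℤ} (hPQ : IsCoprime P Q) {l : ℕ} (hl : l.Prime) {m : ℕ} (hm : 1 ≤ m)
    (h : (l : ℤ) ∣ U P Q m) : ¬ (l : ℤ) ∣ Q := by
  intro hQ
  have hP : ¬ (l : ℤ) ∣ P := fun hP =>
    (Nat.prime_iff_prime_int.mp hl).not_isUnit (hPQ.isUnit_of_dvd' hP hQ)
  exact not_dvd_U hl hQ hP hm h

/-- a primitive prime divisor `l` of `U_m` satisfies `m ≤ l + 1` -/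
theorem size {P Q : ℤ} (hPQ : IsCoprime P Q) {m l : ℕ} (hm : 1 ≤ m) (hl : l.Prime)
    (h : (l : ℤ) ∣ U P Q m) (h2 : ∀ j, 0 < j → j < m → ¬ (l : ℤ) ∣ U P Q j) : m ≤ l + 1 := by
  obtain ⟨j, h1, h3, h4⟩ := apparition (P := P) hl (not_dvd_Q hPQ hl hm h)
  by_contra h5
  exact h2 j h1 (by omega) h4

theorem main_U {P Q : ℤ} (hPQ : IsCoprime P Q) {n M : ℕ}
    (hpow : Powerful (U P Q n)) (hM5 : 5 ≤ M) (hM : IsPrimePow M) (hMn : M ∣ n)
    (hmax : ∀ r, IsPrimePow r → r ∣ n → r ≤ M) :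
    ∃ m, (m = M ∨ m + 1 = M) ∧ IsPrimePow m ∧ m ∣ n ∧ Wieferich P Q m := by
  by_cases hW : Wieferich P Q M
  · exact ⟨M, Or.inl rfl, hM, hMn, hW⟩
  unfold Wieferich at hW
  push Not at hW
  obtain ⟨l, hl, hlU, hprim, hsq⟩ := hW
  have h1 : l * M ∣ n := exactly_U hPQ (by omega) hl hlU hsq hMn hpow
  have h2 : M ≤ l + 1 := size hPQ (by omega) hl hlU hprim
  have hln : l ∣ n := (Dvd.intro _ rfl).trans h1
  have h3 : l ≤ M := hmax l hl.isPrimePow hln
  rcases Nat.lt_or_ge l M with h4 | h4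
  · refine ⟨l, Or.inr (by omega), hl.isPrimePow, hln, ?_⟩
    intro l' hl' hlU' hprim'
    by_contra hsq'
    have h6 : l' * l ∣ n := exactly_U hPQ (by omega) hl' hlU' hsq' hln hpow
    have h7 : l ≤ l' + 1 := size hPQ (by omega) hl' hlU' hprim'
    have h8 : l' ≤ M := hmax l' hl'.isPrimePow ((Dvd.intro _ rfl).trans h6)
    have hodd : Odd l := hl.odd_of_ne_two (by omega)
    have hodd' : Odd l' := hl'.odd_of_ne_two (by omega)
    have h9 : l' = l := by
      obtain ⟨a, ha⟩ := hodd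
      obtain ⟨b, hb⟩ := hodd'
      omega
    subst h9
    have h10 := hmax (l' ^ 2) (hl.isPrimePow.pow two_ne_zero) (by rw [pow_two]; exact h6)
    nlinarith
  · exfalso
    have h5 : l = M := by omega
    subst h5
    have h10 := hmax (l ^ 2) (hl.isPrimePow.pow two_ne_zero) (by rw [pow_two]; exact h1)
    nlinarith

theorem main_V {P Q : ℤ} (hPQ : IsCoprime P Q) {a n' q j : ℕ} (hodd : Odd n')
    (hqn : q ^ j ∣ n') (hmax : ∀ l, l.Prime → l ∣ n' → l ≤ q ^ j)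
    (hm2 : 2 ≤ 2 ^ a * q ^ j) (hpow : Powerful (V P Q (2 ^ a * n'))) :
    Wieferich P Q (2 ^ (a + 1) * q ^ j) := by
  intro l hl hlU hprim
  by_contra hsq
  have e1 : 2 ^ (a + 1) * q ^ j = 2 ^ a * q ^ j * 2 := by ring
  have e2 : U P Q (2 ^ (a + 1) * q ^ j) = U P Q (2 ^ a * q ^ j) * V P Q (2 ^ a * q ^ j) := by
    rw [e1, U_mul, U_rec, U_one, U_zero]; ring
  have h0 : ¬ (l : ℤ) ∣ U P Q (2 ^ a * q ^ j) := hprim _ (by omega) (by omega)
  have h1 : (l : ℤ) ∣ V P Q (2 ^ a * q ^ j) := by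
    rw [e2] at hlU
    exact ((Nat.prime_iff_prime_int.mp hl).dvd_or_dvd hlU).resolve_left h0
  have h2 : ¬ (l : ℤ) ^ 2 ∣ V P Q (2 ^ a * q ^ j) := fun h => hsq (by
    rw [e2]; exact h.mul_left _)
  obtain ⟨k, hk⟩ := hqn
  have hkodd : Odd k := by
    rw [hk, Nat.odd_mul] at hodd
    exact hodd.2
  have h3 : l * (2 ^ a * q ^ j) ∣ 2 ^ a * n' :=
    exactly_V hPQ (by omega) hl h1 h2 (k := k) (by rw [hk]; ring) hkodd hpow
  have h4 : 2 ^ (a + 1) * q ^ j ≤ l + 1 := size hPQ (by omega) hl hlU hprim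
  have h5 : l ∣ n' := by
    have h6 : l ∣ 2 ^ a * n' := (Dvd.intro _ rfl).trans h3
    rcases (hl.dvd_mul).mp h6 with h7 | h7
    · have h8 := (Nat.prime_dvd_prime_iff_eq hl Nat.prime_two).mp (hl.dvd_of_dvd_pow h7)
      omega
    · exact h7
  have h6 := hmax l hl h5
  have h7 : q ^ j ≤ 2 ^ a * q ^ j := Nat.le_mul_of_pos_left _ (by positivity)
  omega

end main

/-- **Reduction to prime power indices.** -/
theorem result {P Q : ℤ} (hPQ : IsCoprime P Q) :
    (∀ n M : ℕ, 1 ≤ n → Powerful (U P Q n) → 5 ≤ M → IsPrimePow M → M ∣ n →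
      (∀ r, IsPrimePow r → r ∣ n → r ≤ M) →
        ∃ m, (m = M ∨ m + 1 = M) ∧ IsPrimePow m ∧ m ∣ n ∧ Wieferich P Q m) ∧
    (∀ a n' q j : ℕ, Odd n' → q.Prime → Odd q → q ^ j ∣ n' →
      (∀ r, IsPrimePow r → r ∣ n' → r ≤ q ^ j) → 2 ≤ 2 ^ a * q ^ j →
        Powerful (V P Q (2 ^ a * n')) → Wieferich P Q (2 ^ (a + 1) * q ^ j)) ∧
    ({n | 1 ≤ n ∧ Powerful (U P Q n)}.Infinite →
      {m | IsPrimePow m ∧ Wieferich P Q m}.Infinite) ∧
    ({n | 1 ≤ n ∧ Powerful (V P Q n)}.Infinite →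
      {m | (∃ b q j : ℕ, 1 ≤ b ∧ q.Prime ∧ Odd q ∧ m = 2 ^ b * q ^ j) ∧
        Wieferich P Q m}.Infinite) := by
  have hA : ∀ n M : ℕ, 1 ≤ n → Powerful (U P Q n) → 5 ≤ M → IsPrimePow M → M ∣ n →
      (∀ r, IsPrimePow r → r ∣ n → r ≤ M) →
        ∃ m, (m = M ∨ m + 1 = M) ∧ IsPrimePow m ∧ m ∣ n ∧ Wieferich P Q m :=
    fun n M _ hpow hM5 hM hMn hmax => main_U hPQ hpow hM5 hM hMn hmax
  have hB : ∀ a n' q j : ℕ, Odd n' → q.Prime → Odd q → q ^ j ∣ n' →
      (∀ r, IsPrimePow r → r ∣ n' → r ≤ q ^ j) → 2 ≤ 2 ^ a * q ^ j →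
        Powerful (V P Q (2 ^ a * n')) → Wieferich P Q (2 ^ (a + 1) * q ^ j) :=
    fun a n' q j hodd _ _ hqn hmax hm2 hpow =>
      main_V hPQ hodd hqn (fun l hl hln => hmax l hl.isPrimePow hln) hm2 hpow
  refine ⟨hA, hB, fun hinf => ?_, fun hinf => ?_⟩
  · intro hfin
    obtain ⟨B, hBd⟩ := hfin.bddAbove
    refine hinf ((Set.finite_Iic ((Finset.Icc 1 (B + 5)).lcm id)).subset ?_)
    rintro n ⟨hn, hpow⟩
    have hpos : 0 < (Finset.Icc 1 (B + 5)).lcm id := by
      rw [Nat.pos_iff_ne_zero, Ne, Finset.lcm_eq_zero_iff]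
      rintro ⟨x, hx, hx0⟩
      rw [Finset.mem_Icc] at hx
      simp only [id] at hx0
      omega
    refine Nat.le_of_dvd hpos (dvd_lcm_of (fun r hr hrn => ?_) (by omega))
    by_contra hlt
    obtain ⟨M, hM, hMn, hrM, hmax⟩ := max_prime_pow (by omega) hr hrn
    obtain ⟨m, h1, h2, -, h3⟩ := hA n M hn hpow (by omega) hM hMn hmax
    have h4 : m ≤ B := hBd ⟨h2, h3⟩
    omega
  · intro hfin
    obtain ⟨B, hBd⟩ := hfin.bddAbove
    refine hinf ((Set.finite_Iic ((Finset.Icc 1 (B + 1)).lcm id)).subset ?_)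
    rintro n ⟨hn, hpow⟩
    have hpos : 0 < (Finset.Icc 1 (B + 1)).lcm id := by
      rw [Nat.pos_iff_ne_zero, Ne, Finset.lcm_eq_zero_iff]
      rintro ⟨x, hx, hx0⟩
      rw [Finset.mem_Icc] at hx
      simp only [id] at hx0
      omega
    refine Nat.le_of_dvd hpos (dvd_lcm_of (fun r hr hrn => ?_) (by omega))
    obtain ⟨a, n', hodd, rfl⟩ := Nat.exists_eq_two_pow_mul_odd (n := n) (by omega)
    have hn' : n' ≠ 0 := by rintro rfl; simp at hn
    -- an odd prime power (or one) bounding the prime powers dividing `n'`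
    obtain ⟨q, j, hq, hqodd, hqn, hmax⟩ : ∃ q j : ℕ, q.Prime ∧ Odd q ∧ q ^ j ∣ n' ∧
        ∀ r, IsPrimePow r → r ∣ n' → r ≤ q ^ j := by
      rcases Nat.eq_or_lt_of_le (Nat.one_le_iff_ne_zero.mpr hn') with h3 | h3
      · refine ⟨3, 0, Nat.prime_three, by decide, by simp, fun r hr hrn => ?_⟩
        rw [← h3] at hrn
        exact (Nat.dvd_one.mp hrn).le
      · obtain ⟨s, hs, hsn⟩ := Nat.exists_prime_and_dvd (n := n') (by omega)
        obtain ⟨M, hM, hMn, -, hmax⟩ := max_prime_pow hn' hs.isPrimePow hsn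
        obtain ⟨q, j, hq, hj, rfl⟩ := (isPrimePow_nat_iff M).mp hM
        have hqodd : Odd q := by
          have := hodd.of_dvd_nat hMn
          exact (Nat.odd_pow_iff hj.ne').mp this
        exact ⟨q, j, hq, hqodd, hMn, hmax⟩
    have hle : 2 ^ a * q ^ j ≤ B + 1 := by
      rcases Nat.lt_or_ge (2 ^ a * q ^ j) 2 with h1 | h1
      · omega
      · have h2 := hB a n' q j hodd hq hqodd hqn hmax h1 hpow
        have h3 : 2 ^ (a + 1) * q ^ j ≤ B :=
          hBd ⟨⟨a + 1, q, j, by omega, hq, hqodd, rfl⟩, h2⟩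
        have e1 : 2 ^ (a + 1) * q ^ j = 2 * (2 ^ a * q ^ j) := by ring
        omega
    have hqpos : 0 < q ^ j := Nat.pow_pos hq.pos
    obtain ⟨p, k, hp, hk, rfl⟩ := (isPrimePow_nat_iff r).mp hr
    rcases hp.eq_two_or_odd' with rfl | hpodd
    · have h1 : 2 ^ k ∣ 2 ^ a :=
        Nat.Coprime.dvd_of_dvd_mul_right ((Nat.coprime_two_left.mpr hodd).pow_left k) hrn
      have h2 : 2 ^ k ≤ 2 ^ a := Nat.le_of_dvd (by positivity) h1
      have h5 : 2 ^ a ≤ 2 ^ a * q ^ j := Nat.le_mul_of_pos_right _ hqpos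
      omega
    · have h1 : p ^ k ∣ n' :=
        Nat.Coprime.dvd_of_dvd_mul_left ((Nat.coprime_two_right.mpr hpodd).pow k a) hrn
      have h4 := hmax _ (hp.isPrimePow.pow hk.ne') h1
      have h5 : q ^ j ≤ 2 ^ a * q ^ j := Nat.le_mul_of_pos_left _ (by positivity)
      omega

end Pool.Agent.Results.MP_cb8e45_nt.PrimePowers
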