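import Mathlib
import Pool.Agent.Results.MP_cb8e45_nt.PrimePowers

/-!
# Powerful terms in Lucas sequences: a density alternative

For every coprime pair `P, Q`: either the indices `n` with `U_n` powerful have natural density
zero, or `U_q` is powerful for all primes `q` outside a set with convergent sum of reciprocals.
There is a similar statement for `V_n`.  Idea: if `U_q` is not powerful, then some prime `l`
divides it exactly once, `l ≥ q - 1`, and `l q ∣ n` for each powerful `U_n` with `q ∣ n`.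
-/

open Filter Topology Finset

namespace Pool.Agent.Results.MP_cb8e45_nt.ZeroDensity

open Pool.Agent.Results.MP_cb8e45_nt.PrimePowers (U V Powerful U_zero U_one V_zero V_one U_rec
  V_rec U_mul norm_eq exactly_U exactly_V apparition not_dvd_U not_dvd_V not_dvd_Q)

/-- `S` has natural density zero -/
def DensityZero (S : Set ℕ) : Prop :=
  Tendsto (fun x : ℕ => ((S ∩ Set.Icc 1 x).ncard : ℝ) / x) atTop (𝓝 0)

theorem exists_finset {A : Set ℕ}
    (hdiv : ¬ Summable (A.indicator (fun q : ℕ => (1 : ℝ) / q))) (T : ℕ) (K : ℝ) :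
    ∃ F : Finset ℕ, (∀ q ∈ F, q ∈ A ∧ T < q) ∧ K ≤ ∑ q ∈ F, (1 : ℝ) / q := by
  classical
  have h0 : ∀ n, 0 ≤ A.indicator (fun q : ℕ => (1 : ℝ) / q) n := fun n =>
    Set.indicator_nonneg (fun _ _ => by positivity) n
  rw [not_summable_iff_tendsto_nat_atTop_of_nonneg h0] at hdiv
  obtain ⟨N, hN, hTN⟩ := ((hdiv.eventually_ge_atTop
    (K + ∑ i ∈ range (T + 1), A.indicator (fun q : ℕ => (1 : ℝ) / q) i)).and
    (eventually_ge_atTop (T + 1))).exists
  refine ⟨(Ico (T + 1) N).filter (· ∈ A), fun q hq => ?_, ?_⟩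
  · rw [mem_filter, mem_Ico] at hq
    exact ⟨hq.2, by omega⟩
  · have h1 : ∑ q ∈ (Ico (T + 1) N).filter (· ∈ A), (1 : ℝ) / q =
        ∑ q ∈ Ico (T + 1) N, A.indicator (fun q : ℕ => (1 : ℝ) / q) q := by
      rw [Finset.sum_filter]
      exact Finset.sum_congr rfl fun q _ => by simp only [Set.indicator_apply]
    rw [h1, Finset.sum_Ico_eq_sub _ hTN]
    linarith

theorem totient_prod {F : Finset ℕ} (hF : ∀ q ∈ F, q.Prime) :
    (Nat.totient (∏ q ∈ F, q) : ℝ) ≤ (∏ q ∈ F, q : ℕ) * Real.exp (-∑ q ∈ F, (1 : ℝ) / q) := by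
  have h1 := Nat.totient_eq_mul_prod_factors (∏ q ∈ F, q)
  have h2 : (∏ q ∈ F, q).primeFactors = F := Nat.primeFactors_prod hF
  rw [h2] at h1
  have h3 : (Nat.totient (∏ q ∈ F, q) : ℝ) =
      (∏ q ∈ F, q : ℕ) * ∏ q ∈ F, (1 - (q : ℝ)⁻¹) := by
    have := congrArg (fun r : ℚ => (r : ℝ)) h1
    push_cast at this ⊢
    exact this
  rw [h3]
  refine mul_le_mul_of_nonneg_left ?_ (by positivity)
  rw [← Finset.sum_neg_distrib, Real.exp_sum]
  refine Finset.prod_le_prod (fun q hq => ?_) (fun q hq => ?_)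
  · have h4 : (1 : ℝ) ≤ q := by exact_mod_cast (hF q hq).one_lt.le
    have := inv_le_one_of_one_le₀ h4
    linarith
  · have := Real.add_one_le_exp (-((1 : ℝ) / q))
    rw [one_div] at this ⊢
    linarith

theorem count_le {S : Set ℕ} {F : Finset ℕ} (hF : ∀ q ∈ F, q.Prime) (d : ℕ → ℕ)
    (hd : ∀ q ∈ F, ∀ n ∈ S, q ∣ n → d q ∣ n) (x : ℕ) :
    ((S ∩ Set.Icc 1 x).ncard : ℝ) ≤
      (Nat.totient (∏ q ∈ F, q) : ℝ) * (x / (∏ q ∈ F, q : ℕ) + 1) + ∑ q ∈ F, (x : ℝ) / d q := by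
  classical
  set M := ∏ q ∈ F, q with hM
  have hM0 : M ≠ 0 := Finset.prod_ne_zero_iff.mpr fun q hq => (hF q hq).ne_zero
  have h1 : (S ∩ Set.Icc 1 x) ⊆
      (((Ico 1 (1 + x)).filter (fun n => M.Coprime n) ∪
        F.biUnion (fun q => (Ioc 0 x).filter (fun n => d q ∣ n)) : Finset ℕ) : Set ℕ) := by
    rintro n ⟨hnS, hn1, hnx⟩
    rw [Finset.mem_coe, Finset.mem_union]
    by_cases hcop : M.Coprime n
    · left
      rw [mem_filter, mem_Ico]
      exact ⟨⟨hn1, by omega⟩, hcop⟩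
    · right
      obtain ⟨q, hq, hqn⟩ : ∃ q ∈ F, q ∣ n := by
        by_contra hne
        push Not at hne
        exact hcop (Nat.Coprime.prod_left fun q hq =>
          ((hF q hq).coprime_iff_not_dvd).mpr (hne q hq))
      rw [mem_biUnion]
      refine ⟨q, hq, ?_⟩
      rw [mem_filter, mem_Ioc]
      exact ⟨⟨by omega, hnx⟩, hd q hq n hnS hqn⟩
  have h2 := Set.ncard_le_ncard h1 (Finset.finite_toSet _)
  rw [Set.ncard_coe_finset] at h2
  have h3 := Nat.Ico_filter_coprime_le 1 x hM0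
  have h4 : (F.biUnion (fun q => (Ioc 0 x).filter (fun n => d q ∣ n))).card ≤
      ∑ q ∈ F, x / d q := by
    refine Finset.card_biUnion_le.trans (Finset.sum_le_sum fun q _ => ?_)
    rw [Nat.Ioc_filter_dvd_card_eq_div]
  have h5 : (S ∩ Set.Icc 1 x).ncard ≤ M.totient * (x / M + 1) + ∑ q ∈ F, x / d q :=
    h2.trans ((Finset.card_union_le _ _).trans (add_le_add h3 h4))
  have h6 : (((S ∩ Set.Icc 1 x).ncard : ℕ) : ℝ) ≤
      ((M.totient * (x / M + 1) + ∑ q ∈ F, x / d q : ℕ) : ℝ) := by exact_mod_cast h5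
  refine h6.trans ?_
  push_cast
  refine add_le_add ?_ (Finset.sum_le_sum fun q _ => Nat.cast_div_le)
  refine mul_le_mul_of_nonneg_left ?_ (by positivity)
  have : ((x / M : ℕ) : ℝ) ≤ (x : ℝ) / (M : ℝ) := Nat.cast_div_le
  linarith

theorem density_zero {S A : Set ℕ} (hA : ∀ q ∈ A, q.Prime)
    (hdiv : ¬ Summable (A.indicator (fun q : ℕ => (1 : ℝ) / q))) (T : ℕ)
    (h : ∀ q ∈ A, T < q → ∃ d, q ^ 2 ≤ 2 * d ∧ ∀ n ∈ S, q ∣ n → d ∣ n) : DensityZero S := by
  classical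
  rw [DensityZero, Metric.tendsto_atTop]
  intro ε hε
  obtain ⟨T1, hT1⟩ := exists_nat_gt (8 / ε)
  have hT1pos : 0 < T1 := by
    have : (0 : ℝ) < T1 := lt_trans (by positivity) hT1
    exact_mod_cast this
  obtain ⟨F, hF, hK⟩ := exists_finset hdiv (max T T1) (-Real.log (ε / 4))
  have hFp : ∀ q ∈ F, q.Prime := fun q hq => hA q (hF q hq).1
  have hex : ∀ q, ∃ d, q ∈ F → (q ^ 2 ≤ 2 * d ∧ ∀ n ∈ S, q ∣ n → d ∣ n) := by
    intro q
    by_cases hq : q ∈ F
    · obtain ⟨d, hd⟩ := h q (hF q hq).1 (lt_of_le_of_lt (le_max_left _ _) (hF q hq).2)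
      exact ⟨d, fun _ => hd⟩
    · exact ⟨0, fun hq' => absurd hq' hq⟩
  choose d hd using hex
  set M := ∏ q ∈ F, q with hM
  have hM0 : M ≠ 0 := Finset.prod_ne_zero_iff.mpr fun q hq => (hFp q hq).ne_zero
  have hMpos : (0 : ℝ) < M := by exact_mod_cast Nat.pos_of_ne_zero hM0
  obtain ⟨X, hX⟩ := exists_nat_gt (4 * (M.totient : ℝ) / ε)
  refine ⟨max X 1, fun x hx => ?_⟩
  have hx1 : 1 ≤ x := (le_max_right _ _).trans hx
  have hxX : X ≤ x := (le_max_left _ _).trans hx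
  have hxpos : (0 : ℝ) < x := by exact_mod_cast hx1
  rw [Real.dist_eq, sub_zero, abs_of_nonneg (by positivity), div_lt_iff₀ hxpos]
  have hc := count_le (S := S) hFp d (fun q hq n hn hqn => (hd q hq).2 n hn hqn) x
  rw [← hM] at hc
  -- the three terms
  have e1 : (M.totient : ℝ) ≤ M * (ε / 4) := by
    refine (totient_prod hFp).trans (mul_le_mul_of_nonneg_left ?_ hMpos.le)
    calc Real.exp (-∑ q ∈ F, (1 : ℝ) / q) ≤ Real.exp (Real.log (ε / 4)) :=
          Real.exp_le_exp.mpr (by linarith)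
      _ = ε / 4 := Real.exp_log (by positivity)
  have e2 : (M.totient : ℝ) * (x / M) ≤ ε / 4 * x := by
    rw [mul_div_assoc', div_le_iff₀ hMpos]
    nlinarith [mul_le_mul_of_nonneg_right e1 hxpos.le]
  have e3 : (M.totient : ℝ) < ε / 4 * x := by
    have h1 : (X : ℝ) ≤ x := by exact_mod_cast hxX
    have h2 : 4 * (M.totient : ℝ) / ε < x := lt_of_lt_of_le hX h1
    rw [div_lt_iff₀ hε] at h2
    linarith
  have e4 : ∑ q ∈ F, (x : ℝ) / d q ≤ ε / 4 * x := by
    have h1 : ∀ q ∈ F, (x : ℝ) / d q ≤ (2 * x) * ((q : ℝ) ^ 2)⁻¹ := by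
      intro q hq
      have h2 : (q : ℝ) ^ 2 ≤ 2 * d q := by exact_mod_cast (hd q hq).1
      have h3 : (0 : ℝ) < (q : ℝ) ^ 2 := by
        have := (hFp q hq).pos
        positivity
      have h4 : (0 : ℝ) < d q := by linarith
      rw [← div_eq_mul_inv, div_le_div_iff₀ h4 h3]
      nlinarith
    refine (Finset.sum_le_sum h1).trans ?_
    rw [← Finset.mul_sum]
    have h5 : ∑ q ∈ F, ((q : ℝ) ^ 2)⁻¹ ≤ (T1 : ℝ)⁻¹ := by
      have h6 : F ⊆ Ioc T1 (F.sup id + T1) := by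
        intro q hq
        rw [mem_Ioc]
        refine ⟨lt_of_le_of_lt (le_max_right _ _) (hF q hq).2, ?_⟩
        have : q ≤ F.sup id := Finset.le_sup (f := id) hq
        omega
      refine (Finset.sum_le_sum_of_subset_of_nonneg h6 fun _ _ _ => by positivity).trans ?_
      refine (sum_Ioc_inv_sq_le_sub hT1pos.ne' (by omega)).trans ?_
      have : (0 : ℝ) ≤ ((F.sup id + T1 : ℕ) : ℝ)⁻¹ := by positivity
      linarith
    have h7 : (T1 : ℝ)⁻¹ ≤ ε / 8 := by
      have : 0 < (T1 : ℝ) := by exact_mod_cast hT1pos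
      rw [inv_le_comm₀ this (by positivity), inv_div]
      exact hT1.le
    calc 2 * (x : ℝ) * ∑ q ∈ F, ((q : ℝ) ^ 2)⁻¹ ≤ 2 * x * (ε / 8) :=
          mul_le_mul_of_nonneg_left (h5.trans h7) (by positivity)
      _ = ε / 4 * x := by ring
  have e5 : (M.totient : ℝ) * (x / M + 1) = M.totient * (x / M) + M.totient := by ring
  rw [e5] at hc
  have e6 : ε / 4 * x + ε / 4 * x + ε / 4 * x < ε * x := by nlinarith
  linarith

/-- a finite union of sets of density zero has density zero -/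
theorem DensityZero.union {S T : Set ℕ} (hS : DensityZero S) (hT : DensityZero T) :
    DensityZero (S ∪ T) := by
  rw [DensityZero] at *
  have h1 := hS.add hT
  rw [add_zero] at h1
  refine squeeze_zero (fun x => by positivity) (fun x => ?_) h1
  rw [← add_div]
  refine div_le_div_of_nonneg_right ?_ (by positivity)
  rw [Set.union_inter_distrib_right]
  exact_mod_cast Set.ncard_union_le _ _

theorem DensityZero.mono {S T : Set ℕ} (hT : DensityZero T) (h : S ⊆ T) : DensityZero S := by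
  rw [DensityZero] at *
  refine squeeze_zero (fun x => by positivity) (fun x => ?_) hT
  refine div_le_div_of_nonneg_right ?_ (by positivity)
  exact_mod_cast Set.ncard_le_ncard (Set.inter_subset_inter_left _ h)
    ((Set.finite_Icc 1 x).subset Set.inter_subset_right)

/-- exhausting by the exponent of two -/
theorem density_exhaust {S : Set ℕ}
    (h : ∀ a, DensityZero {n | n ∈ S ∧ 2 ^ a ∣ n ∧ ¬ 2 ^ (a + 1) ∣ n}) : DensityZero S := by
  classical
  have hfin : ∀ A, DensityZero {n | n ∈ S ∧ ¬ 2 ^ A ∣ n} := by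
    intro A
    induction A with
    | zero =>
      rw [DensityZero]
      simp
    | succ A ih =>
      refine (ih.union (h A)).mono fun n hn => ?_
      by_cases h1 : 2 ^ A ∣ n
      · exact Or.inr ⟨hn.1, h1, hn.2⟩
      · exact Or.inl ⟨hn.1, h1⟩
  rw [DensityZero, Metric.tendsto_atTop]
  intro ε hε
  obtain ⟨A, hA⟩ := exists_pow_lt_of_lt_one (show (0 : ℝ) < ε / 2 by positivity)
    (show (1 / 2 : ℝ) < 1 by norm_num)
  have h1 := hfin A
  rw [DensityZero, Metric.tendsto_atTop] at h1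
  obtain ⟨X, hX⟩ := h1 (ε / 2) (by positivity)
  refine ⟨max X 1, fun x hx => ?_⟩
  have hx1 : 1 ≤ x := (le_max_right _ _).trans hx
  have hxpos : (0 : ℝ) < x := by exact_mod_cast hx1
  have h2 := hX x ((le_max_left _ _).trans hx)
  rw [Real.dist_eq, sub_zero, abs_of_nonneg (by positivity), div_lt_iff₀ hxpos] at h2 ⊢
  have h3 : S ∩ Set.Icc 1 x ⊆ ({n | n ∈ S ∧ ¬ 2 ^ A ∣ n} ∩ Set.Icc 1 x) ∪
      (((Ioc 0 x).filter (fun n => 2 ^ A ∣ n) : Finset ℕ) : Set ℕ) := by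
    rintro n ⟨hn, hn1, hn2⟩
    by_cases h4 : 2 ^ A ∣ n
    · right
      rw [mem_coe, mem_filter, mem_Ioc]
      exact ⟨⟨by omega, hn2⟩, h4⟩
    · exact Or.inl ⟨⟨hn, h4⟩, hn1, hn2⟩
  have h4 := (Set.ncard_le_ncard h3 (((Set.finite_Icc 1 x).subset Set.inter_subset_right).union
    (Finset.finite_toSet _))).trans (Set.ncard_union_le _ _)
  rw [Set.ncard_coe_finset, Nat.Ioc_filter_dvd_card_eq_div] at h4
  have h5 : ((S ∩ Set.Icc 1 x).ncard : ℝ) ≤
      (({n | n ∈ S ∧ ¬ 2 ^ A ∣ n} ∩ Set.Icc 1 x).ncard : ℝ) + ((x / 2 ^ A : ℕ) : ℝ) := by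
    exact_mod_cast h4
  have h6 : ((x / 2 ^ A : ℕ) : ℝ) ≤ (x : ℝ) * (1 / 2) ^ A := by
    refine Nat.cast_div_le.trans (le_of_eq ?_)
    push_cast
    rw [one_div, inv_pow, div_eq_mul_inv]
  have h7 : (x : ℝ) * (1 / 2) ^ A ≤ x * (ε / 2) := mul_le_mul_of_nonneg_left hA.le hxpos.le
  linarith

section rank

variable {P Q : ℤ}

theorem U_sum (P Q : ℤ) (m n : ℕ) :
    U P Q (m + n + 1) = U P Q (m + 1) * U P Q (n + 1) - Q * (U P Q m * U P Q n) ∧
    U P Q (m + n + 2) = U P Q (m + 1) * U P Q (n + 2) - Q * (U P Q m * U P Q (n + 1)) := by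
  induction n with
  | zero =>
    constructor
    · simp [U_one, U_zero]
    · simp only [add_zero, zero_add]
      rw [U_rec P Q m, U_rec P Q 0, U_one, U_zero]
      ring
  | succ n ih =>
    refine ⟨ih.2, ?_⟩
    rw [show m + (n + 1) + 2 = (m + n + 1) + 2 by ring, U_rec P Q (m + n + 1),
      show m + n + 1 + 1 = m + n + 2 by ring, ih.1, ih.2,
      show n + 1 + 2 = (n + 1) + 2 by ring, U_rec P Q (n + 1),
      show n + 1 + 1 = n + 2 by ring, U_rec P Q n]
    ring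

theorem U_consec {l : ℕ} (hl : l.Prime) (hQ : ¬ (l : ℤ) ∣ Q) {m : ℕ}
    (h : (l : ℤ) ∣ U P Q (m + 1)) : ¬ (l : ℤ) ∣ U P Q m := by
  have hlp := Nat.prime_iff_prime_int.mp hl
  intro h1
  have key : ∀ n : ℕ, U P Q (n + 1) ^ 2 - P * U P Q (n + 1) * U P Q n + Q * U P Q n ^ 2
      = Q ^ n := by
    intro n
    induction n with
    | zero => simp [U_zero, U_one]
    | succ n ih =>
      rw [show n + 1 + 1 = n + 2 by ring, U_rec P Q n]
      linear_combination Q * ih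
  have h2 := key m
  have h3 : (l : ℤ) ∣ Q ^ m := by
    rw [← h2]
    obtain ⟨a, ha⟩ := h
    obtain ⟨b, hb⟩ := h1
    rw [ha, hb]
    exact ⟨l * a ^ 2 - P * a * (l * b) + Q * l * b ^ 2, by ring⟩
  exact hQ (hlp.dvd_of_dvd_pow h3)

theorem U_sub {l : ℕ} (hl : l.Prime) (hQ : ¬ (l : ℤ) ∣ Q) {m n : ℕ}
    (h1 : (l : ℤ) ∣ U P Q (n + m)) (h2 : (l : ℤ) ∣ U P Q m) : (l : ℤ) ∣ U P Q n := by
  have hlp := Nat.prime_iff_prime_int.mp hl
  rcases m with _ | m
  · simpa using h1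
  · have h3 := (U_sum P Q m n).1
    rw [show n + (m + 1) = m + n + 1 by ring, h3] at h1
    have h4 : (l : ℤ) ∣ Q * (U P Q m * U P Q n) := by
      have h5 := dvd_sub (h2.mul_right (U P Q (n + 1))) h1
      simpa using h5
    exact ((hlp.dvd_or_dvd ((hlp.dvd_or_dvd h4).resolve_left hQ))).resolve_left
      (U_consec hl hQ h2)

theorem U_gcd {l : ℕ} (hl : l.Prime) (hQ : ¬ (l : ℤ) ∣ Q) (m n : ℕ) :
    (l : ℤ) ∣ U P Q m → (l : ℤ) ∣ U P Q n → (l : ℤ) ∣ U P Q (Nat.gcd m n) := by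
  induction m, n using Nat.gcd.induction with
  | H0 n =>
    intro _ h
    simpa using h
  | H1 m n hm ih =>
    intro h1 h2
    rw [Nat.gcd_rec]
    refine ih ?_ h1
    have h3 : n = n % m + m * (n / m) := (Nat.mod_add_div n m).symm
    refine U_sub hl hQ (m := m * (n / m)) ?_ ?_
    · rw [← h3]; exact h2
    · rw [U_mul]; exact h1.mul_right _

end rank

/-- **Density zero.** -/
theorem result {P Q : ℤ} (hPQ : IsCoprime P Q) :
    (¬ Summable ({q : ℕ | q.Prime ∧ ¬ Powerful (U P Q q)}.indicator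
        (fun q : ℕ => (1 : ℝ) / q)) →
      DensityZero {n | 1 ≤ n ∧ Powerful (U P Q n)}) ∧
    (∀ a : ℕ, ¬ Summable ({q : ℕ | q.Prime ∧ ∃ l : ℕ, l.Prime ∧ ¬ (l : ℤ) ∣ V P Q (2 ^ a) ∧
        (l : ℤ) ∣ V P Q (2 ^ a * q) ∧ ¬ (l : ℤ) ^ 2 ∣ V P Q (2 ^ a * q)}.indicator
        (fun q : ℕ => (1 : ℝ) / q)) →
      DensityZero {n | (1 ≤ n ∧ Powerful (V P Q n)) ∧ 2 ^ a ∣ n ∧ ¬ 2 ^ (a + 1) ∣ n}) ∧
    ((∀ a : ℕ, ¬ Summable ({q : ℕ | q.Prime ∧ ∃ l : ℕ, l.Prime ∧ ¬ (l : ℤ) ∣ V P Q (2 ^ a) ∧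
        (l : ℤ) ∣ V P Q (2 ^ a * q) ∧ ¬ (l : ℤ) ^ 2 ∣ V P Q (2 ^ a * q)}.indicator
        (fun q : ℕ => (1 : ℝ) / q))) →
      DensityZero {n | 1 ≤ n ∧ Powerful (V P Q n)}) := by
  have hV : ∀ a : ℕ, ¬ Summable ({q : ℕ | q.Prime ∧ ∃ l : ℕ, l.Prime ∧
        ¬ (l : ℤ) ∣ V P Q (2 ^ a) ∧
        (l : ℤ) ∣ V P Q (2 ^ a * q) ∧ ¬ (l : ℤ) ^ 2 ∣ V P Q (2 ^ a * q)}.indicator
        (fun q : ℕ => (1 : ℝ) / q)) →
      DensityZero {n | (1 ≤ n ∧ Powerful (V P Q n)) ∧ 2 ^ a ∣ n ∧ ¬ 2 ^ (a + 1) ∣ n} := by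
    intro a hdiv
    refine density_zero (fun q hq => hq.1) hdiv 2 ?_
    rintro q ⟨hq, l, hl, hla, hlV, hlV2⟩ hq2
    by_cases hex : ∃ n, ((1 ≤ n ∧ Powerful (V P Q n)) ∧ 2 ^ a ∣ n ∧ ¬ 2 ^ (a + 1) ∣ n) ∧ q ∣ n
    · have hqodd : Odd q := hq.odd_of_ne_two (by omega)
      have hcop : Nat.Coprime (2 ^ a) q := (Nat.coprime_two_left.mpr hqodd).pow_left a
      have hm : 1 ≤ 2 ^ a * q := Nat.mul_pos (by positivity) hq.pos
      -- divisibility for every `n` of the set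
      have key : ∀ n, ((1 ≤ n ∧ Powerful (V P Q n)) ∧ 2 ^ a ∣ n ∧ ¬ 2 ^ (a + 1) ∣ n) → q ∣ n →
          l * (2 ^ a * q) ∣ n := by
        rintro n ⟨⟨hn1, hn2⟩, hn3, hn4⟩ hqn
        obtain ⟨k, hk⟩ := hcop.mul_dvd_of_dvd_of_dvd hn3 hqn
        have hkodd : Odd k := by
          rw [← Nat.not_even_iff_odd]
          rintro ⟨r, hr⟩
          apply hn4
          rw [hk, hr, pow_succ]
          exact ⟨q * r, by ring⟩
        exact exactly_V hPQ hm hl hlV hlV2 hk hkodd hn2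
      obtain ⟨n0, hn0, hqn0⟩ := hex
      have hl2 : l ≠ 2 := by
        rintro rfl
        apply hn0.2.2
        refine Dvd.dvd.trans ?_ (key n0 hn0 hqn0)
        exact ⟨q, by ring⟩
      have hlp := Nat.prime_iff_prime_int.mp hl
      have hlQ : ¬ (l : ℤ) ∣ Q := by
        intro hQ
        have hP : ¬ (l : ℤ) ∣ P := fun hP => hlp.not_isUnit (hPQ.isUnit_of_dvd' hP hQ)
        exact not_dvd_V hl hQ hP hm hlV
      have hU2 : ∀ m : ℕ, U P Q (m * 2) = U P Q m * V P Q m := fun m => by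
        rw [U_mul, U_rec, U_one, U_zero]; ring
      -- `l` divides not both `U_m` and `V_m`
      have hnot : ¬ (l : ℤ) ∣ U P Q (2 ^ a * q) := by
        intro hlU
        have h1 := (norm_eq P Q (2 ^ a * q)).1
        have h2 : (l : ℤ) ∣ 4 * Q ^ (2 ^ a * q) := by
          have h3 : 4 * Q ^ (2 ^ a * q) = V P Q (2 ^ a * q) * V P Q (2 ^ a * q) -
              U P Q (2 ^ a * q) * ((P ^ 2 - 4 * Q) * U P Q (2 ^ a * q)) := by
            linear_combination -h1
          rw [h3]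
          exact dvd_sub (hlV.mul_right _) (hlU.mul_right _)
        rcases hlp.dvd_or_dvd h2 with h3 | h3
        · have h4 : l ∣ 4 := by exact_mod_cast h3
          have h5 : l ∣ 2 ^ 2 := by simpa using h4
          exact hl2 ((Nat.prime_dvd_prime_iff_eq hl Nat.prime_two).mp
            (hl.dvd_of_dvd_pow h5))
        · exact hlQ (hlp.dvd_of_dvd_pow h3)
      obtain ⟨j, hj1, hj2, hj3⟩ := apparition (P := P) hl hlQ
      have h4 : (l : ℤ) ∣ U P Q (2 ^ a * q * 2) := by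
        rw [hU2]; exact hlV.mul_left _
      have h5 := U_gcd hl hlQ _ _ h4 hj3
      have hqj : q ∣ j := by
        by_contra hqj
        have h6 : Nat.gcd (2 ^ a * q * 2) j ∣ 2 ^ a * 2 := by
          have h7 : Nat.Coprime (Nat.gcd (2 ^ a * q * 2) j) q := by
            rw [Nat.coprime_comm]
            refine (hq.coprime_iff_not_dvd).mpr fun h8 => hqj ?_
            exact h8.trans (Nat.gcd_dvd_right _ _)
          refine h7.dvd_of_dvd_mul_right ?_
          have h8 := Nat.gcd_dvd_left (2 ^ a * q * 2) j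
          rwa [show 2 ^ a * q * 2 = 2 ^ a * 2 * q by ring] at h8 ⊢
        obtain ⟨c, hc⟩ := h6
        have h7 : (l : ℤ) ∣ U P Q (2 ^ a * 2) := by
          rw [hc, U_mul]
          exact h5.mul_right _
        rw [hU2] at h7
        have h8 := (hlp.dvd_or_dvd h7).resolve_right hla
        exact hnot (by rw [U_mul]; exact h8.mul_right _)
      have hql : q ≤ l + 1 := (Nat.le_of_dvd hj1 hqj).trans hj2
      refine ⟨l * q, ?_, fun n hn hqn => ?_⟩
      · have h6 : q ≤ 2 * l := by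
          have := hl.two_le
          omega
        calc q ^ 2 = q * q := pow_two q
          _ ≤ 2 * l * q := Nat.mul_le_mul_right q h6
          _ = 2 * (l * q) := by ring
      · exact Dvd.dvd.trans ⟨2 ^ a, by ring⟩ (key n hn hqn)
    · push Not at hex
      exact ⟨q ^ 2, by omega, fun n hn hqn => absurd hqn (hex n hn)⟩
  refine ⟨fun hdiv => ?_, hV, fun hdiv => ?_⟩
  · refine density_zero (fun q hq => hq.1) hdiv 1 ?_
    rintro q ⟨hq, hnp⟩ hq1
    by_cases hex : ∃ n, (1 ≤ n ∧ Powerful (U P Q n)) ∧ q ∣ n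
    · obtain ⟨n0, ⟨hn0, hpow0⟩, hqn0⟩ := hex
      have hne : U P Q q ≠ 0 := by
        intro h0
        obtain ⟨k, rfl⟩ := hqn0
        exact hpow0.1 (by rw [U_mul, h0, zero_mul])
      have hex2 : ∃ l : ℕ, l.Prime ∧ (l : ℤ) ∣ U P Q q ∧ ¬ (l : ℤ) ^ 2 ∣ U P Q q := by
        by_contra hno
        push Not at hno
        exact hnp ⟨hne, hno⟩
      obtain ⟨l, hl, hlU, hlU2⟩ := hex2
      have hlQ := not_dvd_Q hPQ hl hq.pos hlU
      obtain ⟨j, hj1, hj2, hj3⟩ := apparition (P := P) hl hlQ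
      have hqj : q ∣ j := by
        by_contra hqj
        have h5 := U_gcd hl hlQ _ _ hlU hj3
        have h6 : Nat.gcd q j = 1 := (hq.coprime_iff_not_dvd).mpr hqj
        rw [h6, U_one] at h5
        exact (Nat.prime_iff_prime_int.mp hl).not_isUnit (isUnit_of_dvd_one h5)
      have hql : q ≤ l + 1 := (Nat.le_of_dvd hj1 hqj).trans hj2
      refine ⟨l * q, ?_, fun n hn hqn => ?_⟩
      · have h6 : q ≤ 2 * l := by
          have := hl.two_le
          omega
        calc q ^ 2 = q * q := pow_two q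
          _ ≤ 2 * l * q := Nat.mul_le_mul_right q h6
          _ = 2 * (l * q) := by ring
      · exact exactly_U hPQ hq.pos hl hlU hlU2 hqn hn.2
    · push Not at hex
      exact ⟨q ^ 2, by omega, fun n hn hqn => absurd hqn (hex n hn)⟩
  · exact density_exhaust fun a => hV a (hdiv a)

end Pool.Agent.Results.MP_cb8e45_nt.ZeroDensity
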